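import Mathlib

/-!
# t5:CPS, part A: sums over residue classes in one variable
-/

set_option autoImplicit false

namespace Pool.Agent.T5

open Finset Filter Topology

/-- telescoping bounds -/
theorem CPS_tele (f g : ℝ → ℝ) (q r : ℝ) (hq : 0 < q) (hr : 0 ≤ r)
    (h1 : ∀ x, q < x → q * f x ≤ g (x - q) - g x) (h2 : ∀ x, 0 < x → g x - g (x + q) ≤ q * f x)
    (J1 J2 : ℕ) (hJ : J1 ≤ J2) (hJ1 : 1 ≤ J1) :
    q * ∑ j ∈ Ioc J1 J2, f (r + q * j) ≤ g (r + q * J1) - g (r + q * J2) ∧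
    g (r + q * (J1 + 1)) - g (r + q * (J2 + 1)) ≤ q * ∑ j ∈ Ioc J1 J2, f (r + q * j) := by
  induction J2, hJ using Nat.le_induction with
  | base => simp
  | succ n hn ih =>
    obtain ⟨i1, i2⟩ := ih
    rw [Finset.sum_Ioc_succ_top (by omega)]
    have hn1 : (1 : ℝ) ≤ n := by exact_mod_cast le_trans hJ1 hn
    have e1 := h1 (r + q * ((n + 1 : ℕ) : ℝ)) (by push_cast; nlinarith)
    have e2 := h2 (r + q * ((n + 1 : ℕ) : ℝ)) (by push_cast; nlinarith)
    have e3 : r + q * ((n + 1 : ℕ) : ℝ) - q = r + q * n := by push_cast; ring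
    have e4 : r + q * ((n + 1 : ℕ) : ℝ) + q = r + q * (((n + 1 : ℕ) : ℝ) + 1) := by ring
    have e5 : r + q * ((n : ℝ) + 1) = r + q * ((n + 1 : ℕ) : ℝ) := by push_cast; ring
    rw [e3] at e1
    rw [e4] at e2
    rw [e5] at i2
    constructor <;> linarith

/-- the one dimensional sum -/
noncomputable def CPS_S (f : ℝ → ℝ) (a b : ℝ) (q r : ℕ) (X : ℝ) : ℝ :=
  ∑ n ∈ (range (⌊b * X⌋₊ + 1)).filter (fun n : ℕ => a * X < n ∧ n % q = r), f n

theorem CPS_prog (f : ℝ → ℝ) (a b X : ℝ) (q r : ℕ) (hr : r < q) (hX : 0 < X) (hb : 0 < b)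
    (ha : (r : ℝ) ≤ a * X) (hab : a ≤ b) :
    CPS_S f a b q r X = ∑ j ∈ Ioc ⌊(a * X - r) / q⌋₊ ⌊(b * X - r) / q⌋₊, f ((r : ℝ) + q * j) := by
  unfold CPS_S
  have hq : (0 : ℝ) < q := by
    have : 0 < q := by omega
    exact_mod_cast this
  have hbX : (r : ℝ) ≤ b * X := le_trans ha (mul_le_mul_of_nonneg_right hab hX.le)
  refine Finset.sum_nbij' (fun n => n / q) (fun j => r + q * j) ?_ ?_ ?_ ?_ ?_
  · intro n hn
    rw [Finset.mem_filter, Finset.mem_range] at hn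
    obtain ⟨h1, h2, h3⟩ := hn
    have h4 := Nat.mod_add_div n q
    rw [h3] at h4
    have h5 : (n : ℝ) = r + q * ((n / q : ℕ) : ℝ) := by exact_mod_cast h4.symm
    rw [Finset.mem_Ioc]
    constructor
    · rw [Nat.floor_lt (div_nonneg (by linarith) hq.le), div_lt_iff₀ hq]
      linarith [mul_comm (q : ℝ) ((n / q : ℕ) : ℝ)]
    · have h6 : (n : ℝ) ≤ b * X := by
        have h7 : n ≤ ⌊b * X⌋₊ := by omega
        exact (Nat.le_floor_iff (by positivity)).1 h7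
      refine Nat.le_floor ?_
      rw [le_div_iff₀ hq]
      linarith [mul_comm (q : ℝ) ((n / q : ℕ) : ℝ)]
  · intro j hj
    rw [Finset.mem_Ioc] at hj
    obtain ⟨h1, h2⟩ := hj
    rw [Nat.floor_lt (div_nonneg (by linarith) hq.le), div_lt_iff₀ hq] at h1
    rw [Nat.le_floor_iff (div_nonneg (by linarith) hq.le), le_div_iff₀ hq] at h2
    rw [Finset.mem_filter, Finset.mem_range]
    refine ⟨?_, ?_, ?_⟩
    · refine Nat.lt_succ_of_le (Nat.le_floor ?_)
      push_cast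
      linarith [mul_comm (q : ℝ) (j : ℝ)]
    · push_cast
      linarith [mul_comm (q : ℝ) (j : ℝ)]
    · rw [Nat.add_mul_mod_self_left, Nat.mod_eq_of_lt hr]
  · intro n hn
    rw [Finset.mem_filter, Finset.mem_range] at hn
    have h4 := Nat.mod_add_div n q
    rw [hn.2.2] at h4
    exact h4
  · intro j hj
    rw [Nat.add_mul_div_left _ _ (by omega : 0 < q), Nat.div_eq_of_lt hr, zero_add]
  · intro n hn
    rw [Finset.mem_filter, Finset.mem_range] at hn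
    have h4 := Nat.mod_add_div n q
    rw [hn.2.2] at h4
    have h5 : (r : ℝ) + q * ((n / q : ℕ) : ℝ) = n := by exact_mod_cast h4
    rw [h5]

theorem CPS_end (a : ℝ) (q r : ℕ) (hq : 0 < q) (ha : 0 < a) (t : ℝ) (ht : 0 ≤ t) :
    Tendsto (fun X : ℝ => ((r : ℝ) + q * ((⌊(a * X - r) / q⌋₊ : ℝ) + t)) / X) atTop (𝓝 a) := by
  have hq' : (0 : ℝ) < q := by exact_mod_cast hq
  have l1 : Tendsto (fun X : ℝ => a - (q : ℝ) / X) atTop (𝓝 (a - 0)) :=
    tendsto_const_nhds.sub (tendsto_const_nhds.div_atTop tendsto_id)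
  have l2 : Tendsto (fun X : ℝ => a + (q : ℝ) * t / X) atTop (𝓝 (a + 0)) :=
    tendsto_const_nhds.add (tendsto_const_nhds.div_atTop tendsto_id)
  rw [sub_zero] at l1
  rw [add_zero] at l2
  refine tendsto_of_tendsto_of_tendsto_of_le_of_le' l1 l2 ?_ ?_
  · filter_upwards [eventually_gt_atTop 0] with X hX
    rw [le_div_iff₀ hX, sub_mul, div_mul_cancel₀ _ hX.ne']
    have h1 := Nat.lt_floor_add_one ((a * X - r) / q)
    rw [div_lt_iff₀ hq'] at h1
    nlinarith [mul_nonneg hq'.le ht]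
  · filter_upwards [eventually_gt_atTop 0, eventually_ge_atTop ((r : ℝ) / a)] with X hX hXr
    rw [div_le_iff₀ hX, add_mul, div_mul_cancel₀ _ hX.ne']
    rw [div_le_iff₀ ha] at hXr
    have h1 := Nat.floor_le (div_nonneg (by linarith : 0 ≤ a * X - r) hq'.le)
    rw [le_div_iff₀ hq'] at h1
    nlinarith

theorem CPS_lim (f g s : ℝ → ℝ) (a b : ℝ) (q r : ℕ) (hr : r < q) (ha : 0 < a) (hab : a < b)
    (hg : ∀ x, 0 < x → ContinuousAt g x)
    (h1 : ∀ x, (q : ℝ) < x → q * f x ≤ g (x - q) - g x)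
    (h2 : ∀ x, 0 < x → g x - g (x + q) ≤ q * f x)
    (hs : ∀ X t t', 0 < X → 0 < t → 0 < t' → s X * (g t - g t') = g (t / X) - g (t' / X))
    (hs0 : ∀ X, 0 < X → 0 ≤ s X) :
    Tendsto (fun X => s X * CPS_S f a b q r X) atTop (𝓝 ((g a - g b) / q)) := by
  have hq0 : 0 < q := by omega
  have hq : (0 : ℝ) < q := by exact_mod_cast hq0
  have hb : 0 < b := lt_trans ha hab
  have hlim : ∀ t : ℝ, 0 ≤ t → Tendsto (fun X : ℝ =>
      (g (((r : ℝ) + q * ((⌊(a * X - r) / q⌋₊ : ℝ) + t)) / X) -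
        g (((r : ℝ) + q * ((⌊(b * X - r) / q⌋₊ : ℝ) + t)) / X)) / q) atTop
      (𝓝 ((g a - g b) / q)) := by
    intro t ht
    exact (((hg a ha).tendsto.comp (CPS_end a q r hq0 ha t ht)).sub
      ((hg b hb).tendsto.comp (CPS_end b q r hq0 hb t ht))).div_const _
  refine tendsto_of_tendsto_of_tendsto_of_le_of_le' (hlim 1 zero_le_one) (hlim 0 le_rfl) ?_ ?_
  all_goals
    filter_upwards [eventually_gt_atTop 0, eventually_ge_atTop ((r + q : ℝ) / a)] with X hX hXr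
    rw [div_le_iff₀ ha] at hXr
    have hraX : (r : ℝ) ≤ a * X := by linarith
    have hJ1 : 1 ≤ ⌊(a * X - r) / q⌋₊ := by
      refine Nat.le_floor ?_
      rw [Nat.cast_one, le_div_iff₀ hq]
      linarith
    have hJ : ⌊(a * X - r) / q⌋₊ ≤ ⌊(b * X - r) / q⌋₊ := by
      refine Nat.floor_le_floor ?_
      refine div_le_div_of_nonneg_right ?_ hq.le
      nlinarith
    obtain ⟨t1, t2⟩ := CPS_tele f g q r hq (Nat.cast_nonneg r) h1 h2 _ _ hJ hJ1
    rw [CPS_prog f a b X q r hr hX hb hraX hab.le]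
    have hy1 : (0 : ℝ) < (r : ℝ) + q * ⌊(a * X - r) / q⌋₊ := by
      have : (1 : ℝ) ≤ ⌊(a * X - r) / q⌋₊ := by exact_mod_cast hJ1
      have h0 : (0 : ℝ) ≤ r := Nat.cast_nonneg r
      nlinarith
    have hy2 : (0 : ℝ) < (r : ℝ) + q * ⌊(b * X - r) / q⌋₊ := by
      have : (1 : ℝ) ≤ ⌊(b * X - r) / q⌋₊ := by exact_mod_cast le_trans hJ1 hJ
      have h0 : (0 : ℝ) ≤ r := Nat.cast_nonneg r
      nlinarith
    have hsX := hs0 X hX
  · rw [div_le_iff₀ hq, ← hs X _ _ hX (by nlinarith) (by nlinarith)]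
    calc s X * (g (↑r + ↑q * (↑⌊(a * X - ↑r) / ↑q⌋₊ + 1)) - g (↑r + ↑q * (↑⌊(b * X - ↑r) / ↑q⌋₊ + 1)))
        ≤ s X * (q * ∑ j ∈ Ioc ⌊(a * X - r) / q⌋₊ ⌊(b * X - r) / q⌋₊, f ((r : ℝ) + q * j)) :=
          mul_le_mul_of_nonneg_left t2 hsX
      _ = _ := by ring
  · rw [le_div_iff₀ hq, add_zero, add_zero, ← hs X _ _ hX hy1 hy2]
    calc s X * (∑ j ∈ Ioc ⌊(a * X - r) / q⌋₊ ⌊(b * X - r) / q⌋₊, f ((r : ℝ) + q * j)) * q
        = s X * (q * ∑ j ∈ Ioc ⌊(a * X - r) / q⌋₊ ⌊(b * X - r) / q⌋₊, f ((r : ℝ) + q * j)) := by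
          ring
      _ ≤ _ := mul_le_mul_of_nonneg_left t1 hsX

/-- weight `1 / n ^ 3` -/
theorem CPS_lim3 (a b : ℝ) (q r : ℕ) (hr : r < q) (ha : 0 < a) (hab : a < b) :
    Tendsto (fun X => X ^ 2 * CPS_S (fun x => 1 / x ^ 3) a b q r X) atTop
      (𝓝 (((a ^ 2)⁻¹ / 2 - (b ^ 2)⁻¹ / 2) / q)) := by
  have hq : (0 : ℝ) < q := by
    have : 0 < q := by omega
    exact_mod_cast this
  refine CPS_lim (fun x => 1 / x ^ 3) (fun x => (x ^ 2)⁻¹ / 2) (fun X => X ^ 2) a b q r hr ha hab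
    ?_ ?_ ?_ ?_ ?_
  · intro x hx
    exact ((continuousAt_id.pow 2).inv₀ (pow_ne_zero 2 hx.ne')).div_const 2
  · intro x hx
    have hx0 : 0 < x := by linarith
    have hxq : 0 < x - q := by linarith
    have e : ((x - q) ^ 2)⁻¹ / 2 - (x ^ 2)⁻¹ / 2 - q * (1 / x ^ 3) =
        (q : ℝ) ^ 2 * (3 * x - 2 * q) / (2 * x ^ 3 * (x - q) ^ 2) := by
      field_simp
      ring
    have : 0 ≤ (q : ℝ) ^ 2 * (3 * x - 2 * q) / (2 * x ^ 3 * (x - q) ^ 2) := by
      have h3 : 0 < 3 * x - 2 * q := by linarith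
      positivity
    linarith
  · intro x hx
    have e : q * (1 / x ^ 3) - ((x ^ 2)⁻¹ / 2 - ((x + q) ^ 2)⁻¹ / 2) =
        (q : ℝ) ^ 2 * (3 * x + 2 * q) / (2 * x ^ 3 * (x + q) ^ 2) := by
      field_simp
      ring
    have : 0 ≤ (q : ℝ) ^ 2 * (3 * x + 2 * q) / (2 * x ^ 3 * (x + q) ^ 2) := by positivity
    linarith
  · intro X t t' hX ht ht'
    field_simp
  · intro X _
    positivity

/-- weight `1 / n` -/
theorem CPS_lim1 (a b : ℝ) (q r : ℕ) (hr : r < q) (ha : 0 < a) (hab : a < b) :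
    Tendsto (fun X => CPS_S (fun x => 1 / x) a b q r X) atTop (𝓝 (Real.log (b / a) / q)) := by
  have hb : 0 < b := lt_trans ha hab
  have hq : (0 : ℝ) < q := by
    have : 0 < q := by omega
    exact_mod_cast this
  have h := CPS_lim (fun x => 1 / x) (fun x => - Real.log x) (fun _ => 1) a b q r hr ha hab
    ?_ ?_ ?_ ?_ ?_
  · have e : (-Real.log a - -Real.log b) / (q : ℝ) = Real.log (b / a) / q := by
      rw [Real.log_div hb.ne' ha.ne']
      ring
    rw [e] at h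
    simpa only [one_mul] using h
  · intro x hx
    exact (Real.continuousAt_log hx.ne').neg
  · intro x hx
    have hx0 : 0 < x := by linarith
    have hxq : 0 < x - q := by linarith
    have h1 := Real.log_le_sub_one_of_pos (div_pos hxq hx0)
    rw [Real.log_div hxq.ne' hx0.ne'] at h1
    have h2 : (x - q) / x - 1 = - (q * (1 / x)) := by
      field_simp
      ring
    linarith
  · intro x hx
    have hxq : 0 < x + q := by linarith
    have h1 := Real.log_le_sub_one_of_pos (div_pos hxq hx)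
    rw [Real.log_div hxq.ne' hx.ne'] at h1
    have h2 : (x + q) / x - 1 = q * (1 / x) := by
      field_simp
      ring
    linarith
  · intro X t t' hX ht ht'
    rw [Real.log_div ht.ne' hX.ne', Real.log_div ht'.ne' hX.ne']
    ring
  · intro X _
    exact zero_le_one

end Pool.Agent.T5
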