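import Pool.Agent.helper95.T5.SpecE
import Pool.Agent.helper14.T5.CPSA

/-!
# t5:CPS: coprime pairs in a box and in residue classes
-/

set_option autoImplicit false

namespace Pool.Agent.T5

open Finset NumberField Pool.Agent.helper3.FT Pool.Agent.helper47.RA
open Filter Topology

/-- the sum over the multiples of `d` in a class -/
noncomputable def CPS_D (f : ℝ → ℝ) (a b : ℝ) (e : ℕ) (c : ℤ) (d : ℕ) (X : ℝ) : ℝ :=
  ∑ n ∈ (range (⌊b * X⌋₊ + 1)).filter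
    (fun n : ℕ => (a * X < n ∧ (e : ℤ) ∣ (n : ℤ) - c) ∧ d ∣ n), f n

theorem CPS_crt (e d : ℕ) (he : 0 < e) (hd : 0 < d) (hco : Nat.Coprime d e) (c : ℤ) :
    ∃ r : ℕ, r < d * e ∧ ∀ n : ℕ, ((e : ℤ) ∣ (n : ℤ) - c ∧ d ∣ n) ↔ n % (d * e) = r := by
  have he' : (e : ℤ) ≠ 0 := by exact_mod_cast he.ne'
  have h0 : 0 ≤ c % (e : ℤ) := Int.emod_nonneg c he'
  set c' : ℕ := (c % (e : ℤ)).toNat with hc'
  have hcc : (e : ℤ) ∣ c - (c' : ℤ) := by
    rw [hc', Int.toNat_of_nonneg h0]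
    exact Int.dvd_self_sub_emod
  obtain ⟨k, hk1, hk2⟩ := Nat.chineseRemainder hco 0 c'
  refine ⟨k % (d * e), Nat.mod_lt _ (Nat.mul_pos hd he), fun n => ?_⟩
  have h1 : ((e : ℤ) ∣ (n : ℤ) - c) ↔ n ≡ c' [MOD e] := by
    rw [Nat.ModEq.comm, Nat.modEq_iff_dvd]
    constructor
    · intro h
      have := dvd_add h hcc
      rwa [sub_add_sub_cancel] at this
    · intro h
      have := dvd_sub h hcc
      rwa [sub_sub_sub_cancel_right] at this
  have h2 : d ∣ n ↔ n ≡ 0 [MOD d] := (Nat.modEq_zero_iff_dvd).symm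
  rw [h1, h2]
  have h3 : (n % (d * e) = k % (d * e)) ↔ n ≡ k [MOD (d * e)] := Iff.rfl
  rw [h3, ← Nat.modEq_and_modEq_iff_modEq_mul hco]
  constructor
  · rintro ⟨h4, h5⟩
    exact ⟨h5.trans hk1.symm, h4.trans hk2.symm⟩
  · rintro ⟨h4, h5⟩
    exact ⟨h5.trans hk2, h4.trans hk1⟩

theorem CPS_DS (f : ℝ → ℝ) (a b : ℝ) (e d : ℕ) (he : 0 < e) (hd : 0 < d)
    (hco : Nat.Coprime d e) (c : ℤ) :
    ∃ r : ℕ, r < d * e ∧ ∀ X, CPS_D f a b e c d X = CPS_S f a b (d * e) r X := by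
  obtain ⟨r, hr, h⟩ := CPS_crt e d he hd hco c
  refine ⟨r, hr, fun X => ?_⟩
  unfold CPS_D CPS_S
  refine Finset.sum_congr (Finset.filter_congr fun n _ => ?_) fun _ _ => rfl
  rw [and_assoc, h n]

theorem CPS_bd (f : ℝ → ℝ) (a b : ℝ) (e : ℕ) (c : ℤ) (d : ℕ) (X F : ℝ) (ha : 0 < a)
    (hb : 0 < b) (hX : 0 < X) (hF : 0 ≤ F)
    (hf : ∀ n : ℕ, a * X < n → 0 ≤ f n ∧ f n ≤ F) :
    0 ≤ CPS_D f a b e c d X ∧ CPS_D f a b e c d X ≤ F * (b * X / d) := by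
  unfold CPS_D
  constructor
  · refine Finset.sum_nonneg fun n hn => ?_
    exact (hf n (Finset.mem_filter.1 hn).2.1.1).1
  · have h1 : ((range (⌊b * X⌋₊ + 1)).filter
        (fun n : ℕ => (a * X < n ∧ (e : ℤ) ∣ (n : ℤ) - c) ∧ d ∣ n)) ⊆
        (Ioc 0 ⌊b * X⌋₊).filter (fun n => d ∣ n) := by
      intro n hn
      rw [Finset.mem_filter, Finset.mem_range] at hn
      rw [Finset.mem_filter, Finset.mem_Ioc]
      refine ⟨⟨?_, by omega⟩, hn.2.2⟩
      have h2 : (0 : ℝ) < n := lt_trans (mul_pos ha hX) hn.2.1.1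
      exact_mod_cast h2
    calc ∑ n ∈ (range (⌊b * X⌋₊ + 1)).filter
          (fun n : ℕ => (a * X < n ∧ (e : ℤ) ∣ (n : ℤ) - c) ∧ d ∣ n), f n
        ≤ ∑ n ∈ (range (⌊b * X⌋₊ + 1)).filter
          (fun n : ℕ => (a * X < n ∧ (e : ℤ) ∣ (n : ℤ) - c) ∧ d ∣ n), F :=
          Finset.sum_le_sum fun n hn => (hf n (Finset.mem_filter.1 hn).2.1.1).2
      _ = F * (((range (⌊b * X⌋₊ + 1)).filter
          (fun n : ℕ => (a * X < n ∧ (e : ℤ) ∣ (n : ℤ) - c) ∧ d ∣ n)).card : ℝ) := by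
          rw [Finset.sum_const, nsmul_eq_mul, mul_comm]
      _ ≤ F * (b * X / d) := by
          refine mul_le_mul_of_nonneg_left ?_ hF
          have h3 := Finset.card_le_card h1
          rw [Nat.Ioc_filter_dvd_card_eq_div] at h3
          calc (((range (⌊b * X⌋₊ + 1)).filter
              (fun n : ℕ => (a * X < n ∧ (e : ℤ) ∣ (n : ℤ) - c) ∧ d ∣ n)).card : ℝ)
              ≤ ((⌊b * X⌋₊ / d : ℕ) : ℝ) := by exact_mod_cast h3
            _ ≤ (⌊b * X⌋₊ : ℝ) / d := Nat.cast_div_le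
            _ ≤ b * X / d := by
                refine div_le_div_of_nonneg_right (Nat.floor_le (by positivity))
                  (Nat.cast_nonneg _)

theorem CPS_bd3 (a b : ℝ) (e : ℕ) (c : ℤ) (d : ℕ) (X : ℝ) (ha : 0 < a) (hb : 0 < b)
    (hX : 0 < X) :
    0 ≤ X ^ 2 * CPS_D (fun x => 1 / x ^ 3) a b e c d X ∧
      X ^ 2 * CPS_D (fun x => 1 / x ^ 3) a b e c d X ≤ b / a ^ 3 / d := by
  have haX : 0 < a * X := mul_pos ha hX
  obtain ⟨h1, h2⟩ := CPS_bd (fun x => 1 / x ^ 3) a b e c d X (1 / (a * X) ^ 3) ha hb hX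
    (by positivity) (fun n hn => by
      have hn0 : (0 : ℝ) < n := lt_trans haX hn
      refine ⟨by positivity, ?_⟩
      exact one_div_le_one_div_of_le (by positivity) (pow_le_pow_left₀ haX.le hn.le 3))
  refine ⟨by positivity, ?_⟩
  calc X ^ 2 * CPS_D (fun x => 1 / x ^ 3) a b e c d X
      ≤ X ^ 2 * (1 / (a * X) ^ 3 * (b * X / d)) := mul_le_mul_of_nonneg_left h2 (by positivity)
    _ = b / a ^ 3 / d := by
        have e1 : X ^ 2 * (1 / (a * X) ^ 3 * (b * X / d)) = (X ^ 2 * (1 / (a * X) ^ 3) * X) * b / d := by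
          ring
        have e2 : X ^ 2 * (1 / (a * X) ^ 3) * X = 1 / a ^ 3 := by
          field_simp
        rw [e1, e2]
        ring

theorem CPS_bd1 (a b : ℝ) (e : ℕ) (c : ℤ) (d : ℕ) (X : ℝ) (ha : 0 < a) (hb : 0 < b)
    (hX : 0 < X) :
    0 ≤ CPS_D (fun x => 1 / x) a b e c d X ∧ CPS_D (fun x => 1 / x) a b e c d X ≤ b / a / d := by
  have haX : 0 < a * X := mul_pos ha hX
  obtain ⟨h1, h2⟩ := CPS_bd (fun x => 1 / x) a b e c d X (1 / (a * X)) ha hb hX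
    (by positivity) (fun n hn => by
      have hn0 : (0 : ℝ) < n := lt_trans haX hn
      exact ⟨by positivity, one_div_le_one_div_of_le haX hn.le⟩)
  refine ⟨h1, h2.trans (le_of_eq ?_)⟩
  have e1 : 1 / (a * X) * (b * X / d) = (1 / (a * X) * X) * b / d := by ring
  have e2 : 1 / (a * X) * X = 1 / a := by field_simp
  rw [e1, e2]
  ring

theorem CPS_mu (n k D : ℕ) (hn : 1 ≤ n) (hnD : n ≤ D) :
    ∑ d ∈ Icc 1 D, (if d ∣ n ∧ d ∣ k then (ArithmeticFunction.moebius d : ℝ) else 0) =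
      if Nat.Coprime n k then 1 else 0 := by
  rw [← Finset.sum_filter]
  have h1 : (Icc 1 D).filter (fun d => d ∣ n ∧ d ∣ k) = (Nat.gcd n k).divisors := by
    ext d
    rw [Finset.mem_filter, Finset.mem_Icc, Nat.mem_divisors]
    constructor
    · rintro ⟨_, h2, h3⟩
      exact ⟨Nat.dvd_gcd h2 h3, (Nat.gcd_pos_of_pos_left k hn).ne'⟩
    · rintro ⟨h2, _⟩
      have h3 := h2.trans (Nat.gcd_dvd_left n k)
      refine ⟨⟨Nat.pos_of_dvd_of_pos h3 hn, (Nat.le_of_dvd hn h3).trans hnD⟩, h3,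
        h2.trans (Nat.gcd_dvd_right n k)⟩
  rw [h1]
  have h2 := congrArg (fun f : ArithmeticFunction ℤ => f (Nat.gcd n k))
    ArithmeticFunction.moebius_mul_coe_zeta
  simp only [ArithmeticFunction.coe_mul_zeta_apply, ArithmeticFunction.one_apply] at h2
  have h3 : ((∑ d ∈ (Nat.gcd n k).divisors, ArithmeticFunction.moebius d : ℤ) : ℝ) =
      ((if Nat.gcd n k = 1 then 1 else 0 : ℤ) : ℝ) := by rw [h2]
  rw [Int.cast_sum] at h3
  rw [h3]
  unfold Nat.Coprime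
  split_ifs <;> simp

theorem CPS_mob (I J : Finset ℕ) (w1 w2 : ℕ → ℝ) (D : ℕ) (hI : ∀ n ∈ I, 1 ≤ n ∧ n ≤ D) :
    ∑ p ∈ (I ×ˢ J).filter (fun p => Nat.Coprime p.1 p.2), w1 p.1 * w2 p.2 =
      ∑ d ∈ Icc 1 D, (ArithmeticFunction.moebius d : ℝ) *
        ((∑ n ∈ I.filter (fun n => d ∣ n), w1 n) * (∑ k ∈ J.filter (fun k => d ∣ k), w2 k)) := by
  have h1 : ∀ d ∈ Icc 1 D, (ArithmeticFunction.moebius d : ℝ) *
        ((∑ n ∈ I.filter (fun n => d ∣ n), w1 n) * (∑ k ∈ J.filter (fun k => d ∣ k), w2 k)) =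
      ∑ n ∈ I, ∑ k ∈ J, w1 n * w2 k *
        (if d ∣ n ∧ d ∣ k then (ArithmeticFunction.moebius d : ℝ) else 0) := by
    intro d _
    rw [Finset.sum_filter, Finset.sum_filter, Finset.sum_mul_sum, Finset.mul_sum]
    refine Finset.sum_congr rfl fun n _ => ?_
    rw [Finset.mul_sum]
    refine Finset.sum_congr rfl fun k _ => ?_
    by_cases hn : d ∣ n <;> by_cases hk : d ∣ k <;> simp [hn, hk]
    ring
  rw [Finset.sum_congr rfl h1, Finset.sum_filter, Finset.sum_product,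
    Finset.sum_comm (s := Icc 1 D)]
  refine Finset.sum_congr rfl fun n hn => ?_
  rw [Finset.sum_comm (s := Icc 1 D)]
  refine Finset.sum_congr rfl fun k _ => ?_
  rw [← Finset.mul_sum, CPS_mu n k D (hI n hn).1 (hI n hn).2]
  by_cases h : Nat.Coprime n k <;> simp [h]

theorem CPS_tsum (a₀ b₀ a₁ b₁ : ℝ) (e : ℕ) (c₀ c₁ : ℤ) (X₁ X₂ : ℝ) (ha₀ : 0 < a₀)
    (_hb₀ : 0 < b₀) (_hb₁ : 0 < b₁) (hX₁ : 0 < X₁) (hX₂ : 0 < X₂) (W : Finset (ℕ × ℕ))
    (hW : ∀ p, p ∈ W ↔ (a₀ * X₁ < p.1 ∧ (p.1 : ℝ) ≤ b₀ * X₁ ∧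
      a₁ * X₂ < p.2 ∧ (p.2 : ℝ) ≤ b₁ * X₂ ∧ Nat.Coprime p.1 p.2 ∧ (e : ℤ) ∣ (p.1 : ℤ) - c₀ ∧
      (e : ℤ) ∣ (p.2 : ℤ) - c₁)) :
    X₁ ^ 2 * ∑ p ∈ W, 1 / ((p.1 : ℝ) ^ 3 * p.2) =
      ∑' d : ℕ, (ArithmeticFunction.moebius d : ℝ) *
        ((X₁ ^ 2 * CPS_D (fun x => 1 / x ^ 3) a₀ b₀ e c₀ d X₁) *
          CPS_D (fun x => 1 / x) a₁ b₁ e c₁ d X₂) := by
  set I : Finset ℕ := (range (⌊b₀ * X₁⌋₊ + 1)).filter
    (fun n : ℕ => a₀ * X₁ < n ∧ (e : ℤ) ∣ (n : ℤ) - c₀) with hI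
  set J : Finset ℕ := (range (⌊b₁ * X₂⌋₊ + 1)).filter
    (fun n : ℕ => a₁ * X₂ < n ∧ (e : ℤ) ∣ (n : ℤ) - c₁) with hJ
  have hWI : W = (I ×ˢ J).filter (fun p => Nat.Coprime p.1 p.2) := by
    ext p
    rw [hW, Finset.mem_filter, Finset.mem_product, hI, hJ, Finset.mem_filter, Finset.mem_filter,
      Finset.mem_range, Finset.mem_range, Nat.lt_succ_iff, Nat.lt_succ_iff,
      Nat.le_floor_iff (by positivity), Nat.le_floor_iff (by positivity)]
    tauto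
  have hIm : ∀ n ∈ I, 1 ≤ n ∧ n ≤ ⌊b₀ * X₁⌋₊ := by
    intro n hn
    rw [hI, Finset.mem_filter, Finset.mem_range] at hn
    refine ⟨?_, by omega⟩
    have h2 : (0 : ℝ) < n := lt_trans (mul_pos ha₀ hX₁) hn.2.1
    exact_mod_cast h2
  have h1 := CPS_mob I J (fun n => 1 / (n : ℝ) ^ 3) (fun k => 1 / (k : ℝ)) ⌊b₀ * X₁⌋₊ hIm
  have hD1 : ∀ d, (∑ n ∈ I.filter (fun n => d ∣ n), 1 / (n : ℝ) ^ 3) =
      CPS_D (fun x => 1 / x ^ 3) a₀ b₀ e c₀ d X₁ := by
    intro d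
    rw [hI, Finset.filter_filter]
    rfl
  have hD2 : ∀ d, (∑ n ∈ J.filter (fun n => d ∣ n), 1 / (n : ℝ)) =
      CPS_D (fun x => 1 / x) a₁ b₁ e c₁ d X₂ := by
    intro d
    rw [hJ, Finset.filter_filter]
    rfl
  have h2 : ∑ p ∈ W, 1 / ((p.1 : ℝ) ^ 3 * p.2) =
      ∑ p ∈ (I ×ˢ J).filter (fun p => Nat.Coprime p.1 p.2), 1 / (p.1 : ℝ) ^ 3 * (1 / (p.2 : ℝ)) := by
    rw [hWI]
    refine Finset.sum_congr rfl fun p _ => ?_
    rw [one_div_mul_one_div]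
  rw [h2, h1, tsum_eq_sum (s := Icc 1 ⌊b₀ * X₁⌋₊)]
  · rw [Finset.mul_sum]
    refine Finset.sum_congr rfl fun d _ => ?_
    rw [hD1, hD2]
    ring
  · intro d hd
    rw [Finset.mem_Icc] at hd
    by_cases hd0 : d = 0
    · rw [hd0]
      simp
    · have h3 : CPS_D (fun x => 1 / x ^ 3) a₀ b₀ e c₀ d X₁ = 0 := by
        rw [← hD1, Finset.filter_false_of_mem, Finset.sum_empty]
        intro n hn hdn
        obtain ⟨h4, h5⟩ := hIm n hn
        have h6 := Nat.le_of_dvd h4 hdn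
        omega
      rw [h3]
      ring

theorem CPS_T (e : ℕ) (he : 0 < e) :
    ∑' d : ℕ, (if Nat.Coprime d e then (ArithmeticFunction.moebius d : ℝ) / (d : ℝ) ^ 2 else 0) =
      (6 / Real.pi ^ 2) / ∏ p ∈ e.primeFactors, (1 - 1 / (p : ℝ) ^ 2) := by
  have : NeZero e := ⟨he.ne'⟩
  have hs : 1 < (2 : ℂ).re := by norm_num
  set χ : DirichletCharacter ℂ e := 1 with hχ
  have h1 := DirichletCharacter.LSeries.mul_mu_eq_one χ hs
  have h2 := DirichletCharacter.LSeries_changeLevel (one_dvd e) (1 : DirichletCharacter ℂ 1) hs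
  rw [DirichletCharacter.changeLevel_one, DirichletCharacter.LSeries_modOne_eq,
    LSeries_one_eq_riemannZeta hs, riemannZeta_two] at h2
  have h3 : ∏ p ∈ e.primeFactors, (1 - (1 : DirichletCharacter ℂ 1) p * (p : ℂ) ^ (-(2 : ℂ))) =
      ((∏ p ∈ e.primeFactors, (1 - 1 / (p : ℝ) ^ 2) : ℝ) : ℂ) := by
    rw [Complex.ofReal_prod]
    refine Finset.prod_congr rfl fun p hp => ?_
    have h4 : (1 : DirichletCharacter ℂ 1) (p : ZMod 1) = 1 :=
      congrFun (DirichletCharacter.modOne_eq_one (R := ℂ) (χ := 1)) p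
    rw [h4, Complex.cpow_neg]
    push_cast
    have h5 : (p : ℂ) ^ (2 : ℂ) = (p : ℂ) ^ 2 := by
      rw [← Complex.cpow_natCast]
      norm_num
    rw [h5]
    ring
  rw [h3] at h2
  rw [hχ] at h1
  rw [h2] at h1
  have h6 : LSeries ((fun n : ℕ => (1 : DirichletCharacter ℂ e) n) *
      (fun n : ℕ => ((ArithmeticFunction.moebius n : ℤ) : ℂ))) 2 =
      ((∑' d : ℕ, (if Nat.Coprime d e then (ArithmeticFunction.moebius d : ℝ) / (d : ℝ) ^ 2 else 0)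
        : ℝ) : ℂ) := by
    rw [Complex.ofReal_tsum]
    unfold LSeries
    refine tsum_congr fun d => ?_
    rw [LSeries.term_def]
    by_cases hd : d = 0
    · rw [if_pos hd, hd]
      simp
    · rw [if_neg hd, Pi.mul_apply]
      have h5 : (d : ℂ) ^ (2 : ℂ) = (d : ℂ) ^ 2 := by
        rw [← Complex.cpow_natCast]
        norm_num
      rw [h5]
      by_cases hco : Nat.Coprime d e
      · have hu : IsUnit (d : ZMod e) := (ZMod.isUnit_iff_coprime d e).2 hco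
        rw [if_pos hco, MulChar.one_apply hu]
        push_cast
        ring
      · have hu : ¬ IsUnit (d : ZMod e) := fun h => hco ((ZMod.isUnit_iff_coprime d e).1 h)
        rw [if_neg hco, MulChar.map_nonunit _ hu]
        simp
  rw [h6] at h1
  have h7 : (Real.pi ^ 2 / 6) * (∏ p ∈ e.primeFactors, (1 - 1 / (p : ℝ) ^ 2)) *
      (∑' d : ℕ, (if Nat.Coprime d e then (ArithmeticFunction.moebius d : ℝ) / (d : ℝ) ^ 2 else 0))
        = 1 := by
    have := h1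
    apply Complex.ofReal_injective
    push_cast at this ⊢
    exact this
  set P : ℝ := ∏ p ∈ e.primeFactors, (1 - 1 / (p : ℝ) ^ 2) with hP
  have hP0 : P ≠ 0 := by
    intro h
    rw [h] at h7
    simp at h7
  rw [eq_div_iff hP0, eq_div_iff (by positivity)]
  linarith

theorem CPS : CPS_stmt := by
  intro a₀ b₀ a₁ b₁ e c₀ c₁ ha₀ hab₀ ha₁ hab₁ he hec ε hε
  have hb₀ : 0 < b₀ := lt_trans ha₀ hab₀
  have hb₁ : 0 < b₁ := lt_trans ha₁ hab₁
  have he0 : 0 < e := he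
  have heR : (0 : ℝ) < e := by exact_mod_cast he0
  set I₁ : ℝ := (a₀ ^ 2)⁻¹ / 2 - (b₀ ^ 2)⁻¹ / 2 with hI₁
  set I₂ : ℝ := Real.log (b₁ / a₁) with hI₂
  set h : ℕ → ℝ := fun d => if Nat.Coprime d e then (ArithmeticFunction.moebius d : ℝ) *
    ((I₁ / ((d * e : ℕ) : ℝ)) * (I₂ / ((d * e : ℕ) : ℝ))) else 0 with hh
  have hmain : Tendsto (fun X : ℝ × ℝ => ∑' d : ℕ, (ArithmeticFunction.moebius d : ℝ) *
        ((X.1 ^ 2 * CPS_D (fun x => 1 / x ^ 3) a₀ b₀ e c₀ d X.1) *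
          CPS_D (fun x => 1 / x) a₁ b₁ e c₁ d X.2)) (atTop ×ˢ atTop) (𝓝 (∑' d, h d)) := by
    refine tendsto_tsum_of_dominated_convergence
      (bound := fun d : ℕ => (b₀ / a₀ ^ 3 * (b₁ / a₁)) * (1 / (d : ℝ) ^ 2)) ?_ ?_ ?_
    · exact (Real.summable_one_div_nat_pow.2 (by norm_num)).mul_left _
    · intro d
      by_cases hco : Nat.Coprime d e
      · by_cases hd0 : d = 0
        · have e1 : h d = 0 := by
            rw [hh, hd0]
            simp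
          rw [e1, hd0]
          simp only [ArithmeticFunction.map_zero, Int.cast_zero, zero_mul]
          exact tendsto_const_nhds
        · have hd : 0 < d := Nat.pos_of_ne_zero hd0
          obtain ⟨r, hr, hS⟩ := CPS_DS (fun x => 1 / x ^ 3) a₀ b₀ e d he0 hd hco c₀
          obtain ⟨r', hr', hS'⟩ := CPS_DS (fun x => 1 / x) a₁ b₁ e d he0 hd hco c₁
          have e1 : h d = (ArithmeticFunction.moebius d : ℝ) *
              ((I₁ / ((d * e : ℕ) : ℝ)) * (I₂ / ((d * e : ℕ) : ℝ))) := by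
            rw [hh]
            simp only [if_pos hco]
          rw [e1]
          simp only [hS, hS']
          refine (Tendsto.mul ?_ ?_).const_mul _
          · exact (CPS_lim3 a₀ b₀ (d * e) r hr ha₀ hab₀).comp tendsto_fst
          · exact (CPS_lim1 a₁ b₁ (d * e) r' hr' ha₁ hab₁).comp tendsto_snd
      · have e1 : h d = 0 := by
          rw [hh]
          simp only [if_neg hco]
        rw [e1]
        have e2 : ∀ X : ℝ × ℝ, (ArithmeticFunction.moebius d : ℝ) *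
            ((X.1 ^ 2 * CPS_D (fun x => 1 / x ^ 3) a₀ b₀ e c₀ d X.1) *
              CPS_D (fun x => 1 / x) a₁ b₁ e c₁ d X.2) = 0 := by
          intro X
          obtain ⟨p, hp, hpd, hpe⟩ := Nat.Prime.not_coprime_iff_dvd.1 hco
          have hz : ∀ (f : ℝ → ℝ) (a b : ℝ) (c : ℤ) (Y : ℝ), ¬ (p : ℤ) ∣ c →
              CPS_D f a b e c d Y = 0 := by
            intro f a b c Y hc
            unfold CPS_D
            rw [Finset.filter_false_of_mem, Finset.sum_empty]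
            rintro n _ ⟨⟨_, h2⟩, h3⟩
            apply hc
            have h4 : (p : ℤ) ∣ (n : ℤ) := by exact_mod_cast hpd.trans h3
            have h5 : (p : ℤ) ∣ (n : ℤ) - c := dvd_trans (by exact_mod_cast hpe) h2
            have := dvd_sub h4 h5
            rwa [sub_sub_cancel] at this
          by_cases hc : (p : ℤ) ∣ c₀
          · have hc1 : ¬ (p : ℤ) ∣ c₁ := fun h' => hec p hp hpe ⟨hc, h'⟩
            rw [hz _ a₁ b₁ c₁ _ hc1]
            ring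
          · rw [hz _ a₀ b₀ c₀ _ hc]
            ring
        simp only [e2]
        exact tendsto_const_nhds
    · have hpos : ∀ᶠ X : ℝ × ℝ in atTop ×ˢ atTop, 0 < X.1 ∧ 0 < X.2 :=
        (tendsto_fst.eventually (eventually_gt_atTop 0)).and
          (tendsto_snd.eventually (eventually_gt_atTop 0))
      filter_upwards [hpos] with X hX d
      obtain ⟨hX1, hX2⟩ := hX
      obtain ⟨p1, p2⟩ := CPS_bd3 a₀ b₀ e c₀ d X.1 ha₀ hb₀ hX1
      obtain ⟨q1, q2⟩ := CPS_bd1 a₁ b₁ e c₁ d X.2 ha₁ hb₁ hX2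
      rw [norm_mul, Real.norm_eq_abs, Real.norm_eq_abs, abs_of_nonneg (mul_nonneg p1 q1)]
      have hmu : |(ArithmeticFunction.moebius d : ℝ)| ≤ 1 := by
        have := ArithmeticFunction.abs_moebius_le_one (n := d)
        exact_mod_cast this
      calc |(ArithmeticFunction.moebius d : ℝ)| *
            ((X.1 ^ 2 * CPS_D (fun x => 1 / x ^ 3) a₀ b₀ e c₀ d X.1) *
              CPS_D (fun x => 1 / x) a₁ b₁ e c₁ d X.2)
          ≤ 1 * ((b₀ / a₀ ^ 3 / d) * (b₁ / a₁ / d)) :=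
            mul_le_mul hmu (mul_le_mul p2 q2 q1 (le_trans p1 p2)) (mul_nonneg p1 q1) zero_le_one
        _ = (b₀ / a₀ ^ 3 * (b₁ / a₁)) * (1 / (d : ℝ) ^ 2) := by
            rw [div_mul_div_comm, one_mul, mul_one_div, pow_two (d : ℝ)]
  have hval : ∑' d, h d = ((a₀ ^ 2)⁻¹ - (b₀ ^ 2)⁻¹) / 2 * Real.log (b₁ / a₁) *
      (6 / Real.pi ^ 2) / ((∏ p ∈ e.primeFactors, (1 - 1 / (p : ℝ) ^ 2)) * (e : ℝ) ^ 2) := by
    have e1 : ∀ d, h d = (I₁ * I₂ / (e : ℝ) ^ 2) *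
        (if Nat.Coprime d e then (ArithmeticFunction.moebius d : ℝ) / (d : ℝ) ^ 2 else 0) := by
      intro d
      rw [hh]
      by_cases hco : Nat.Coprime d e
      · simp only [if_pos hco]
        push_cast
        simp only [div_eq_mul_inv, mul_inv]
        ring
      · simp only [if_neg hco, mul_zero]
    simp only [e1]
    rw [tsum_mul_left, CPS_T e he0, hI₁, hI₂]
    simp only [div_eq_mul_inv, mul_inv]
    ring
  rw [hval, Metric.tendsto_nhds] at hmain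
  have h1 := hmain ε hε
  rw [prod_atTop_atTop_eq] at h1
  obtain ⟨x0, hx0⟩ := eventually_atTop.1 h1
  refine ⟨max (max x0.1 x0.2) 1, fun X₁ X₂ hX₁ hX₂ W hW => ?_⟩
  have g1 : x0.1 ≤ X₁ := le_trans (le_trans (le_max_left _ _) (le_max_left _ _)) hX₁
  have g2 : x0.2 ≤ X₂ := le_trans (le_trans (le_max_right _ _) (le_max_left _ _)) hX₂
  have g3 : 0 < X₁ := lt_of_lt_of_le one_pos (le_trans (le_max_right _ _) hX₁)
  have g4 : 0 < X₂ := lt_of_lt_of_le one_pos (le_trans (le_max_right _ _) hX₂)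
  rw [CPS_tsum a₀ b₀ a₁ b₁ e c₀ c₁ X₁ X₂ ha₀ hb₀ hb₁ g3 g4 W hW]
  have := hx0 (X₁, X₂) ⟨g1, g2⟩
  rw [Real.dist_eq] at this
  exact this.le

end Pool.Agent.T5
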