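import Pool.Agent.helper95.T5.SpecE

/-!
# t5:EQD: equidistribution in boxes
-/

set_option autoImplicit false

namespace Pool.Agent.T5

open Finset NumberField Pool.Agent.helper3.FT Pool.Agent.helper47.RA

theorem EQD_sMG (N Y Y₂ : ℝ) (hN : 0 < N) (hY : 0 < Y) (hY₂ : 0 < Y₂) :
    sM N Y Y₂ * sG N Y Y₂ = Y₂ * sN N Y Y₂ ^ 2 := by
  unfold sM sG sN
  have h1 : √Y * √Y = Y := Real.mul_self_sqrt hY.le
  have h2 : √Y₂ * √Y₂ = Y₂ := Real.mul_self_sqrt hY₂.le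
  have h3 : √N ≠ 0 := (Real.sqrt_pos.2 hN).ne'
  field_simp
  rw [pow_two, h1]

theorem EQD_sizes (N Y Y₂ : ℝ) (hN : 1 ≤ N) (hY : N ^ (0.39 : ℝ) ≤ Y)
    (hY₂ : N ^ (1 / 2 : ℝ) ≤ Y₂) :
    N ^ (0.14 : ℝ) ≤ sN N Y Y₂ ∧ N ^ (0.14 : ℝ) ≤ sK N Y Y₂ := by
  have hN0 : 0 < N := by linarith
  have hs : 0 < √N := Real.sqrt_pos.2 hN0
  have hsN : √N = N ^ (1 / 2 : ℝ) := Real.sqrt_eq_rpow N
  have hYY : N ^ (0.195 : ℝ) ≤ √Y := by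
    have h1 : √(N ^ (0.39 : ℝ)) ≤ √Y := Real.sqrt_le_sqrt hY
    have h2 : √(N ^ (0.39 : ℝ)) = N ^ (0.195 : ℝ) := by
      rw [Real.sqrt_eq_rpow, ← Real.rpow_mul hN0.le]
      norm_num
    rwa [h2] at h1
  have hYY2 : N ^ (1 / 4 : ℝ) ≤ √Y₂ := by
    have h1 : √(N ^ (1 / 2 : ℝ)) ≤ √Y₂ := Real.sqrt_le_sqrt hY₂
    have h2 : √(N ^ (1 / 2 : ℝ)) = N ^ (1 / 4 : ℝ) := by
      rw [Real.sqrt_eq_rpow, ← Real.rpow_mul hN0.le]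
      norm_num
    rwa [h2] at h1
  constructor
  · unfold sN
    rw [le_div_iff₀ hs, hsN]
    calc N ^ (0.14 : ℝ) * N ^ (1 / 2 : ℝ) = N ^ (0.39 : ℝ) * N ^ (1 / 4 : ℝ) := by
          rw [← Real.rpow_add hN0, ← Real.rpow_add hN0]
          norm_num
      _ ≤ Y * √Y₂ := mul_le_mul hY hYY2 (by positivity) (le_trans (by positivity) hY)
  · unfold sK
    rw [le_div_iff₀ hs, hsN]
    calc N ^ (0.14 : ℝ) * N ^ (1 / 2 : ℝ) ≤ N ^ (0.195 : ℝ) * N ^ (1 / 2 : ℝ) := by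
          refine mul_le_mul_of_nonneg_right ?_ (by positivity)
          exact Real.rpow_le_rpow_of_exponent_le hN (by norm_num)
      _ ≤ √Y * Y₂ := mul_le_mul hYY hY₂ (by positivity) (Real.sqrt_nonneg _)

theorem EQD_alg2 (x Y Y₂ s e e' q : ℝ) :
    x * Y * (Y₂ * s) / e ^ 2 / (q * e') = Y * Y₂ * (x / (e ^ 2 * e') * s) * (1 / q) := by
  simp only [div_eq_mul_inv, mul_inv]
  ring

theorem EQD_alg (x y z B1 B2 B3 P e e' : ℝ) :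
    x * y * B1 * B2 * B3 * z / (P * (e ^ 4 * e')) =
      B1 * B2 * B3 / (e ^ 2 * e') * (x * y * z / (P * e ^ 2)) := by
  rw [div_mul_div_comm]
  congr 1 <;> ring

theorem EQD (δ : ℝ) (hδ : 0 < δ) (_hδ1 : δ ≤ 1 / 10) (hEQE : EQE_stmt δ) (hCPS : CPS_stmt) :
    EQD_stmt δ := by
  classical
  intro a b ha0 ha1 ha4 hab e c he hec ε hε
  set B : ℝ := (b 2 - a 2) * (b 3 - a 3) * (b 4 - a 4) / ((e : ℝ) ^ 2 * (e1 e (c 0).natAbs : ℝ))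
    with hB
  have hB0 : 0 ≤ B := by
    rw [hB]
    have h1 : 0 < b 2 - a 2 := by linarith [hab 2]
    have h2 : 0 < b 3 - a 3 := by linarith [hab 3]
    have h3 : 0 < b 4 - a 4 := by linarith [hab 4]
    positivity
  set ε' : ℝ := ε / 2 / (B + 1) with hε'def
  have hε' : 0 < ε' := by positivity
  obtain ⟨N1, hN1⟩ := hEQE a b ha0 ha1 ha4 hab e c he hec (ε / 2) (half_pos hε)
  obtain ⟨X0, hX0⟩ := hCPS (a 0) (b 0) (a 1) (b 1) e (c 0) (c 1) ha0 (hab 0) ha1 (hab 1) he hec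
    ε' hε'
  obtain ⟨N2, hN2⟩ := Filter.eventually_atTop.1
    ((tendsto_rpow_atTop (by norm_num : (0 : ℝ) < 0.14)).eventually_ge_atTop X0)
  refine ⟨max (max N1 N2) 1, fun N Y hN hY1 hY2 F hF => ?_⟩
  have hNN1 : N1 ≤ N := le_trans (le_trans (le_max_left _ _) (le_max_left _ _)) hN
  have hNN2 : N2 ≤ N := le_trans (le_trans (le_max_right _ _) (le_max_left _ _)) hN
  have hN1' : 1 ≤ N := le_trans (le_max_right _ _) hN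
  have hN0 : 0 < N := by linarith
  set Y₂ : ℝ := N ^ (1 / 2 + δ / 100) with hY₂def
  have hYpos : 0 < Y := lt_of_lt_of_le (by positivity) hY1
  have hY₂pos : 0 < Y₂ := by positivity
  have hY₂ : N ^ (1 / 2 : ℝ) ≤ Y₂ := Real.rpow_le_rpow_of_exponent_le hN1' (by linarith)
  obtain ⟨hs1, hs2⟩ := EQD_sizes N Y Y₂ hN1' hY1 hY₂
  have hXX := hN2 N hNN2
  -- the finset of pairs
  set W : Finset (ℕ × ℕ) := ((range (⌊b 0 * sN N Y Y₂⌋₊ + 1)) ×ˢ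
    (range (⌊b 1 * sK N Y Y₂⌋₊ + 1))).filter (fun p : ℕ × ℕ =>
      a 0 * sN N Y Y₂ < p.1 ∧ (p.1 : ℝ) ≤ b 0 * sN N Y Y₂ ∧
      a 1 * sK N Y Y₂ < p.2 ∧ (p.2 : ℝ) ≤ b 1 * sK N Y Y₂ ∧
      Nat.Coprime p.1 p.2 ∧ (e : ℤ) ∣ (p.1 : ℤ) - c 0 ∧ (e : ℤ) ∣ (p.2 : ℤ) - c 1) with hW
  have hWm : ∀ p, p ∈ W ↔ (a 0 * sN N Y Y₂ < p.1 ∧ (p.1 : ℝ) ≤ b 0 * sN N Y Y₂ ∧
      a 1 * sK N Y Y₂ < p.2 ∧ (p.2 : ℝ) ≤ b 1 * sK N Y Y₂ ∧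
      Nat.Coprime p.1 p.2 ∧ (e : ℤ) ∣ (p.1 : ℤ) - c 0 ∧ (e : ℤ) ∣ (p.2 : ℤ) - c 1) := by
    intro p
    rw [hW, Finset.mem_filter, Finset.mem_product, Finset.mem_range, Finset.mem_range]
    constructor
    · exact fun h => h.2
    · intro h
      refine ⟨⟨?_, ?_⟩, h⟩
      · exact Nat.lt_succ_of_le (Nat.le_floor h.2.1)
      · exact Nat.lt_succ_of_le (Nat.le_floor h.2.2.2.1)
  have hE := hN1 N Y hNN1 hY1 hY2 F W hF hWm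
  have hC := hX0 (sN N Y Y₂) (sK N Y Y₂) (le_trans hXX hs1) (le_trans hXX hs2) W hWm
  -- the cardinality
  have hcard : (F.card : ℝ) = ∑ p ∈ W, ((F.filter (fun t => t.1 = p)).card : ℝ) := by
    rw [Finset.card_eq_sum_card_fiberwise (f := fun t : Tpl => t.1) (t := W)]
    · push_cast
      rfl
    · intro t ht
      have ht' := (hF t).1 ht
      exact (hWm t.1).2 ⟨ht'.n1, ht'.n2, ht'.k1, ht'.k2, ht'.tt.co, ht'.cn, ht'.ck⟩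
  -- main terms
  have hmain : ∑ p ∈ W, ((b 2 - a 2) * sM N Y Y₂ / e) * ((b 3 - a 3) * sG N Y Y₂ / e) *
      ((b 4 - a 4) * Y) / ((p.1 : ℝ) ^ 3 * p.2 * (e1 e (c 0).natAbs : ℝ)) =
      Y * Y₂ * (B * (sN N Y Y₂ ^ 2 * ∑ p ∈ W, 1 / ((p.1 : ℝ) ^ 3 * p.2))) := by
    have h1 : ∀ p : ℕ × ℕ, ((b 2 - a 2) * sM N Y Y₂ / e) * ((b 3 - a 3) * sG N Y Y₂ / e) *
      ((b 4 - a 4) * Y) / ((p.1 : ℝ) ^ 3 * p.2 * (e1 e (c 0).natAbs : ℝ)) =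
      Y * Y₂ * (B * (sN N Y Y₂ ^ 2)) * (1 / ((p.1 : ℝ) ^ 3 * p.2)) := by
      intro p
      have h2 : ((b 2 - a 2) * sM N Y Y₂ / e) * ((b 3 - a 3) * sG N Y Y₂ / e) *
          ((b 4 - a 4) * Y) = (b 2 - a 2) * (b 3 - a 3) * (b 4 - a 4) * Y *
            (sM N Y Y₂ * sG N Y Y₂) / (e : ℝ) ^ 2 := by
        rw [div_mul_div_comm, div_mul_eq_mul_div]
        congr 1 <;> ring
      rw [h2, EQD_sMG N Y Y₂ hN0 hYpos hY₂pos, hB]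
      exact EQD_alg2 _ _ _ _ _ _ _
    rw [Finset.sum_congr rfl fun p _ => h1 p, ← Finset.mul_sum]
    ring
  rw [EQD_alg ((((a 0) ^ 2)⁻¹ - ((b 0) ^ 2)⁻¹) / 2) (Real.log (b 1 / a 1)) (6 / Real.pi ^ 2)
    (b 2 - a 2) (b 3 - a 3) (b 4 - a 4), ← hB]
  set m1 : ℝ := (((a 0) ^ 2)⁻¹ - ((b 0) ^ 2)⁻¹) / 2 * Real.log (b 1 / a 1) * (6 / Real.pi ^ 2) /
    ((∏ p ∈ e.primeFactors, (1 - 1 / (p : ℝ) ^ 2)) * (e : ℝ) ^ 2) with hm1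
  set s1 : ℝ := sN N Y Y₂ ^ 2 * ∑ p ∈ W, 1 / ((p.1 : ℝ) ^ 3 * p.2) with hs1def
  have hYY : 0 < Y * Y₂ := mul_pos hYpos hY₂pos
  have e1 : |(F.card : ℝ) - Y * Y₂ * (B * s1)| ≤ ε / 2 * (Y * Y₂) := by
    rw [hcard, ← hmain, ← Finset.sum_sub_distrib]
    exact (Finset.abs_sum_le_sum_abs _ _).trans hE
  have e2 : |Y * Y₂ * (B * s1) - Y * Y₂ * (B * m1)| ≤ ε / 2 * (Y * Y₂) := by
    have h3 : Y * Y₂ * (B * s1) - Y * Y₂ * (B * m1) = Y * Y₂ * B * (s1 - m1) := by ring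
    rw [h3, abs_mul, abs_of_nonneg (mul_nonneg hYY.le hB0)]
    have h4 : B * |s1 - m1| ≤ ε / 2 := by
      calc B * |s1 - m1| ≤ B * ε' := mul_le_mul_of_nonneg_left hC hB0
        _ ≤ (B + 1) * ε' := by nlinarith
        _ = ε / 2 := by
            rw [hε'def]
            field_simp
    calc Y * Y₂ * B * |s1 - m1| = Y * Y₂ * (B * |s1 - m1|) := by ring
      _ ≤ Y * Y₂ * (ε / 2) := mul_le_mul_of_nonneg_left h4 hYY.le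
      _ = ε / 2 * (Y * Y₂) := by ring
  calc |(F.card : ℝ) - Y * Y₂ * (B * m1)|
      = |((F.card : ℝ) - Y * Y₂ * (B * s1)) + (Y * Y₂ * (B * s1) - Y * Y₂ * (B * m1))| := by
        congr 1
        ring
    _ ≤ |(F.card : ℝ) - Y * Y₂ * (B * s1)| + |Y * Y₂ * (B * s1) - Y * Y₂ * (B * m1)| :=
        abs_add_le _ _
    _ ≤ ε * (Y * Y₂) := by linarith

end Pool.Agent.T5
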