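import Pool.Agent.helper95.T5.SpecE

/-!
# t5:EQP: boxes for a fixed pair as fibres
-/

set_option autoImplicit false

namespace Pool.Agent.T5

open Finset NumberField Pool.Agent.helper3.FT Pool.Agent.helper47.RA

theorem EQP (hRE1 : RE1_stmt) (hRE2 : RE2_stmt) (hTR : TR_stmt) : EQP_stmt := by
  intro e e' n k c₂ c₃ c₄ m₀ g₀ z₀ M G V hn hk he' hco
  have hcoZ : IsCoprime ((n : ℤ) * 1) ((k : ℤ) * (e' : ℤ)) := by
    rw [mul_one]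
    exact_mod_cast hco.isCoprime
  have h1 : IsCoprime (1 : ℤ) ((n : ℤ) * 1) := isCoprime_one_left
  have h2 : IsCoprime (1 : ℤ) ((k : ℤ) * (e' : ℤ)) := isCoprime_one_left
  obtain ⟨α, β, γ, hR⟩ := hRE1 n k 1 1 1 e' hcoZ h1 h2
  obtain ⟨c₀, hc₀⟩ := hRE2 n k 1 1 1 e' α β γ hcoZ h1 h2 hR c₄ 0
  refine ⟨α, β, γ, c₀, hR, fun F hF => ?_⟩
  have hk0 : (k : ℤ) ≠ 0 := by exact_mod_cast (by omega : k ≠ 0)
  have hnk : Nat.Coprime n k := Nat.Coprime.coprime_mul_right_right hco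
  -- the equivalence
  have key : ∀ m g z : ℤ, (IsT ((n, k), (m, g, z)) ∧ (e' : ℤ) ∣ RR ((n, k), (m, g, z)) - c₄) ↔
      ((n ^ 3 * k * e' : ℕ) : ℤ) ∣ z - (α * m ^ 2 + β * m * g + γ * g ^ 2 + c₀) := by
    intro m g z
    have e1 : ((n ^ 3 * k * e' : ℕ) : ℤ) = ((n : ℤ) ^ 3 * 1) * ((k : ℤ) * (e' : ℤ)) := by
      push_cast
      ring
    rw [e1, hc₀ m g z]
    constructor
    · rintro ⟨hT, hd⟩
      have hRR : (k : ℤ) * RR ((n, k), (m, g, z)) = z * (n : ℤ) ^ 2 - m ^ 2 := (hTR _ hT).2.1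
      constructor
      · have := hT.c1
        rw [mul_one]
        have e2 : 1 * z * (k : ℤ) ^ 4 + 1 * m * g * (k : ℤ) ^ 2 - 1 * g ^ 2 * (n : ℤ) ^ 2 +
            (n : ℤ) ^ 3 * 0 = z * (k : ℤ) ^ 4 + m * g * (k : ℤ) ^ 2 - g ^ 2 * (n : ℤ) ^ 2 := by ring
        rw [e2]
        exact this
      · have e3 : 1 * z * (n : ℤ) ^ 2 - 1 * m ^ 2 - (k : ℤ) * c₄ =
            (k : ℤ) * (RR ((n, k), (m, g, z)) - c₄) := by
          rw [mul_sub, hRR]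
          ring
        rw [e3]
        exact mul_dvd_mul_left _ hd
    · rintro ⟨hd1, hd2⟩
      have hkd : (k : ℤ) ∣ m ^ 2 - z * (n : ℤ) ^ 2 := by
        have h3 : (k : ℤ) ∣ 1 * z * (n : ℤ) ^ 2 - 1 * m ^ 2 - (k : ℤ) * c₄ :=
          dvd_trans (Dvd.intro _ rfl) hd2
        have h4 : (k : ℤ) ∣ 1 * z * (n : ℤ) ^ 2 - 1 * m ^ 2 := by
          have := dvd_add h3 (Dvd.intro c₄ rfl : (k : ℤ) ∣ (k : ℤ) * c₄)
          rwa [sub_add_cancel] at this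
        have h5 := (dvd_neg (α := ℤ)).2 h4
        have e4 : -(1 * z * (n : ℤ) ^ 2 - 1 * m ^ 2) = m ^ 2 - z * (n : ℤ) ^ 2 := by ring
        rwa [e4] at h5
      have hT : IsT ((n, k), (m, g, z)) := by
        refine ⟨hn, hk, hnk, ?_, hkd⟩
        rw [mul_one] at hd1
        have e2 : 1 * z * (k : ℤ) ^ 4 + 1 * m * g * (k : ℤ) ^ 2 - 1 * g ^ 2 * (n : ℤ) ^ 2 +
            (n : ℤ) ^ 3 * 0 = z * (k : ℤ) ^ 4 + m * g * (k : ℤ) ^ 2 - g ^ 2 * (n : ℤ) ^ 2 := by ring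
        rw [e2] at hd1
        exact hd1
      refine ⟨hT, ?_⟩
      have hRR : (k : ℤ) * RR ((n, k), (m, g, z)) = z * (n : ℤ) ^ 2 - m ^ 2 := (hTR _ hT).2.1
      have e3 : 1 * z * (n : ℤ) ^ 2 - 1 * m ^ 2 - (k : ℤ) * c₄ =
          (k : ℤ) * (RR ((n, k), (m, g, z)) - c₄) := by
        rw [mul_sub, hRR]
        ring
      rw [e3] at hd2
      exact (mul_dvd_mul_iff_left hk0).1 hd2
  refine Finset.card_nbij' (fun t => t.2) (fun v => ((n, k), v)) ?_ ?_ ?_ ?_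
  · rintro ⟨p, m, g, z⟩ ht
    obtain ⟨hT, hp, hm1, hm2, hg1, hg2, hz1, hz2, hd1, hd2, hd3⟩ := (hF _).1 ht
    dsimp only at hp hm1 hm2 hg1 hg2 hz1 hz2 hd1 hd2
    subst hp
    have hk2 := (key m g z).1 ⟨hT, hd3⟩
    unfold fibG
    simp only [Finset.coe_filter, Finset.mem_product, Finset.mem_filter, Finset.mem_Ico,
      Set.mem_setOf_eq]
    exact ⟨⟨⟨⟨hm1, hm2⟩, hd1⟩, ⟨⟨hg1, hg2⟩, hd2⟩, hz1, hz2⟩, hk2⟩
  · rintro ⟨m, g, z⟩ hv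
    unfold fibG at hv
    simp only [Finset.coe_filter, Finset.mem_product, Finset.mem_filter, Finset.mem_Ico,
      Set.mem_setOf_eq] at hv
    obtain ⟨⟨⟨⟨hm1, hm2⟩, hd1⟩, ⟨⟨hg1, hg2⟩, hd2⟩, hz1, hz2⟩, hk2⟩ := hv
    obtain ⟨hT, hd3⟩ := (key m g z).2 hk2
    exact (hF _).2 ⟨hT, rfl, hm1, hm2, hg1, hg2, hz1, hz2, hd1, hd2, hd3⟩
  · rintro ⟨p, v⟩ ht
    have hp := ((hF _).1 ht).2.1
    dsimp only at hp ⊢
    rw [hp]
  · intro v _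
    rfl

end Pool.Agent.T5
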