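import Pool.Agent.helper26.T5.SpecB

/-!
# t5:LF2: the weighted number of points outside the good region
-/

set_option autoImplicit false

namespace Pool.Agent.helper26.T5

open NumberField Pool.Agent.helper3.FT Pool.Agent.helper47.RA Pool.Agent.T5 Filter

theorem LF2_neg {K : Type} [Field K] [NumberField K] (Q : QF K) (γ : 𝓞 K) :
    |Q.Y (-γ)| = |Q.Y γ| ∧ Q.v₁ (-γ) = Q.v₁ γ := by
  have h : -γ = ((-1 : ℤ) : 𝓞 K) * γ := by
    push_cast
    ring
  constructor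
  · rw [h, Q.Y_int_mul, abs_mul]
    norm_num
  · rw [h, Q.v₁_mul, Q.v₁_int]
    norm_num

theorem LF2_rho (W N D d : ℝ) (hW : 0 < W) (hN : 1 ≤ N) (hD : 0 < D) (hDN : D ≤ N) :
    2 * W * √D / √(N ^ (1 / 2 - d / 2) * (N ^ d * √D)) ≤ 2 * W * N ^ (-(d / 4)) := by
  have hN0 : 0 < N := by linarith
  have hs : 0 < √D := Real.sqrt_pos.2 hD
  rw [mul_div_assoc]
  refine mul_le_mul_of_nonneg_left ?_ (by linarith)
  rw [← Real.sqrt_div hD.le]
  have h1 : D / (N ^ (1 / 2 - d / 2) * (N ^ d * √D)) ≤ N ^ (-(d / 2)) := by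
    rw [div_le_iff₀ (by positivity)]
    have e1 : N ^ (-(d / 2)) * (N ^ (1 / 2 - d / 2) * (N ^ d * √D)) = √N * √D := by
      rw [← mul_assoc, ← mul_assoc, ← Real.rpow_add hN0, ← Real.rpow_add hN0,
        Real.sqrt_eq_rpow N]
      ring_nf
    rw [e1]
    calc D = √D * √D := (Real.mul_self_sqrt hD.le).symm
      _ ≤ √N * √D := mul_le_mul_of_nonneg_right (Real.sqrt_le_sqrt hDN) hs.le
  have h2 : √(N ^ (-(d / 2))) = N ^ (-(d / 4)) := by
    rw [Real.sqrt_eq_rpow, ← Real.rpow_mul hN0.le]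
    ring_nf
  rw [← h2]
  exact Real.sqrt_le_sqrt h1

theorem lf2 (hL2 : L2) (hE : LEMB) (hYT : LYT) (hAW : LAW) : LF2 := by
  intro d hd
  refine ⟨200, by norm_num, fun κ hκ hκ' w ε hε => ?_⟩
  have hWN : 0 < WW w := by
    unfold WW
    refine Finset.prod_pos fun p hp => ?_
    exact (Finset.mem_filter.1 hp).2.pos
  have hW : (0 : ℝ) < WW w := by exact_mod_cast hWN
  have hlim : Tendsto (fun N : ℝ => 2 * (WW w : ℝ) * N ^ (-(d / 4))) atTop (nhds 0) := by
    have h1 := (tendsto_rpow_neg_atTop (by linarith : 0 < d / 4)).const_mul (2 * (WW w : ℝ))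
    rwa [mul_zero] at h1
  have hmin : 0 < min 1 (ε / 100) := lt_min one_pos (by linarith)
  obtain ⟨N₁, hN₁⟩ := eventually_atTop.1 (hlim.eventually_le_const hmin)
  refine ⟨max N₁ 10, fun K _ _ Q N Y a _ hN hD1 hD2 ha hnE F hF => ?_⟩
  have hNN1 : N₁ ≤ N := le_trans (le_max_left _ _) hN
  have hN10 : 10 ≤ N := le_trans (le_max_right _ _) hN
  have hN0 : 0 < N := by linarith
  have ha' := ha
  obtain ⟨hab, hap, ha5, hnp, -, -⟩ := ha
  -- the discriminant
  have hDr : (Q.D : ℝ) < -4 := by linarith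
  have hDZ : Q.D < -4 := by exact_mod_cast hDr
  have hDneg : Q.D < 0 := by linarith
  have hDp : 0 < -(Q.D : ℝ) := by linarith
  have habs : |(Q.D : ℝ)| = -(Q.D : ℝ) := abs_of_neg (by linarith)
  have hsD : 0 < √(-(Q.D : ℝ)) := Real.sqrt_pos.2 hDp
  have hNd : 0 < N ^ d := Real.rpow_pos_of_pos hN0 d
  set T : ℝ := N ^ d * √(-(Q.D : ℝ)) with hT
  set ℓ : ℝ := N ^ (1 / 2 - d / 2) with hℓ
  have hTpos : 0 < T := mul_pos hNd hsD
  have hℓpos : 0 < ℓ := Real.rpow_pos_of_pos hN0 _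
  have hTs : T / √|(Q.D : ℝ)| = N ^ d := by
    rw [habs, hT, mul_div_assoc, div_self hsD.ne', mul_one]
  have hNE : NE Q a ℓ := by
    intro α hα hα0
    by_contra hcon
    push Not at hcon
    exact hnE ⟨ha', α, hα, hα0, hcon⟩
  -- the generator
  obtain ⟨θ, hθ⟩ := ha5
  have hθs : Ideal.span {θ} = a ^ 5 := hθ.symm
  have hθ0 : θ ≠ 0 := by
    rintro rfl
    rw [Ideal.span_singleton_eq_bot.2 rfl] at hθs
    exact (pow_ne_zero 5 hab) (by rw [← hθs]; rfl)
  obtain ⟨-, -, hgen⟩ := hYT K Q a θ hDZ hab hθs hnp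
  obtain ⟨E, hE1, hE2, hE3, hE4, hE5⟩ := hE K Q hDneg
  set Z : ℝ := (Ideal.absNorm a : ℝ) with hZ
  have hZpos : 0 < Z := by
    have h1 : Ideal.absNorm a ≠ 0 := by
      rw [Ne, Ideal.absNorm_eq_zero_iff]
      exact hab
    have h2 : 0 < Ideal.absNorm a := Nat.pos_of_ne_zero h1
    rw [hZ]
    exact_mod_cast h2
  have hvθ : Q.v₁ θ ^ 2 = Z ^ 5 := by
    rw [← hE4 θ]
    unfold nn
    rw [hθs, map_pow]
    push_cast
    rfl
  -- rho
  set ρ : ℝ := 2 * WW w * √|(Q.D : ℝ)| / √(ℓ * T) with hρ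
  have hρle : ρ ≤ min 1 (ε / 100) := by
    refine le_trans ?_ (hN₁ N hNN1)
    rw [hρ, habs, hℓ, hT]
    exact LF2_rho _ N _ d hW (by linarith) hDp hD2
  have hρ1 : ρ ≤ 1 := le_trans hρle (min_le_left _ _)
  have hρ2 : ρ ≤ ε / 100 := le_trans hρle (min_le_right _ _)
  -- the bad directions
  have hbad : ∀ α ∈ F, α ∈ AL Q a T ∧ BadDir Q a θ (2 * κ) T α := by
    intro α hα
    obtain ⟨hαL, γ, ⟨θ', hθ', hγ⟩, hG⟩ := hF α hα
    refine ⟨hαL, ?_⟩
    obtain ⟨hα2, hαY, hαv⟩ := hαL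
    have hα0 : α ≠ 0 := by
      rintro rfl
      have h0 : Q.Y (0 : 𝓞 K) = 0 := by
        have := Q.Y_int_mul 0 (0 : 𝓞 K)
        simpa using this
      rw [h0] at hαY
      exact lt_irrefl _ hαY
    have hnn : nn α = Ideal.absNorm a ^ 2 * lamI a α :=
      (hAW K Q a α 2 hap hab Nat.prime_two hα0 hα2).1
    set Λ : ℝ := (lamI a α : ℝ) with hΛ
    have hΛ0 : 0 ≤ Λ := Nat.cast_nonneg _
    have hvα2 : Q.v₁ α ^ 2 = Z ^ 2 * Λ := by
      rw [← hE4 α, hnn]
      push_cast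
      rfl
    have hvα : Q.v₁ α = Z * √Λ := by
      have h1 : Q.v₁ α ^ 2 = (Z * √Λ) ^ 2 := by
        rw [hvα2, mul_pow, Real.sq_sqrt hΛ0]
      exact (pow_left_inj₀ (Q.v₁_nonneg α) (by positivity) two_ne_zero).1 h1
    -- the size of gamma
    have hvγ : Q.v₁ γ = √Z * Λ := by
      have h1 : Q.v₁ γ * Q.v₁ θ' = Z * Q.v₁ α ^ 2 := by
        have h2 := congrArg Q.v₁ hγ
        rw [Q.v₁_mul, Q.v₁_mul] at h2
        have h3 : Q.v₁ (Ideal.absNorm a : 𝓞 K) = Z := by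
          have h4 := Q.v₁_int (Ideal.absNorm a : ℤ)
          rw [Int.cast_natCast] at h4
          rw [h4, hZ]
          rw [abs_of_nonneg (by positivity)]
          push_cast
          rfl
        rw [h2, h3, pow_two, pow_two, Q.v₁_mul]
      have h5 : Q.v₁ θ' ^ 2 = Z ^ 5 := by
        rcases hgen θ' hθ'.symm with h | h
        · rw [h, hvθ]
        · rw [h, (LF2_neg Q θ).2, hvθ]
      have h6 : Q.v₁ γ ^ 2 = (√Z * Λ) ^ 2 := by
        have h7 : Q.v₁ γ ^ 2 * Z ^ 5 = (√Z * Λ) ^ 2 * Z ^ 5 := by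
          rw [← h5, ← mul_pow, h1, hvα2, mul_pow (√Z), Real.sq_sqrt hZpos.le, h5]
          ring
        exact mul_right_cancel₀ (pow_ne_zero 5 hZpos.ne') h7
      exact (pow_left_inj₀ (Q.v₁_nonneg γ) (by positivity) two_ne_zero).1 h6
    unfold GoodR at hG
    by_cases c1 : κ * N ^ (1 / 2 + d) ≤ Λ
    · by_cases c2 : 2 * κ * Z * √Λ ≤ (Q.Y α : ℝ) * √(-(Q.D : ℝ))
      · have c3 : ¬ 2 * κ * √Z * Λ ≤ |(Q.Y γ : ℝ)| * √(-(Q.D : ℝ)) := fun h => hG ⟨c1, c2, h⟩
        push Not at c3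
        refine Or.inr (Or.inr ?_)
        have c4 : |(Q.Y γ : ℝ)| * √|(Q.D : ℝ)| ≤ 2 * (2 * κ) * Q.v₁ γ := by
          rw [habs, hvγ]
          have : 0 ≤ 2 * κ * √Z * Λ := by positivity
          linarith
        rcases hgen θ' hθ'.symm with h | h
        · exact ⟨γ, by rw [← h]; exact hγ, c4⟩
        · refine ⟨-γ, ?_, ?_⟩
          · rw [← hγ, h]
            ring
          · have h8 : |(Q.Y (-γ) : ℝ)| = |(Q.Y γ : ℝ)| := by
              have := (LF2_neg Q γ).1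
              exact_mod_cast this
            rw [h8, (LF2_neg Q γ).2]
            exact c4
      · push Not at c2
        refine Or.inr (Or.inl ?_)
        rw [habs, hvα]
        have : 0 ≤ 2 * κ * Z * √Λ := by positivity
        linarith
    · push Not at c1
      refine Or.inl ?_
      rw [hvα2]
      have h9 : N ^ (1 / 2 + d) ≤ 2 * T := by
        rw [Real.rpow_add hN0, ← Real.sqrt_eq_rpow, hT]
        have h10 : √N ≤ 2 * √(-(Q.D : ℝ)) := by
          have h11 : √N ≤ √(4 * -(Q.D : ℝ)) := Real.sqrt_le_sqrt (by linarith)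
          have h12 : √(4 * -(Q.D : ℝ)) = 2 * √(-(Q.D : ℝ)) := by
            rw [Real.sqrt_mul (by norm_num)]
            have : √(4 : ℝ) = 2 := by
              rw [show (4 : ℝ) = 2 ^ 2 by norm_num]
              exact Real.sqrt_sq (by norm_num)
            rw [this]
          rwa [h12] at h11
        nlinarith
      have h13 : Λ ≤ 2 * κ * T := by
        have := mul_le_mul_of_nonneg_left h9 hκ.le
        linarith
      have h14 := mul_le_mul_of_nonneg_left h13 (by positivity : 0 ≤ Z ^ 2)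
      linarith
  have hfin := hL2 K Q a θ w ℓ T ρ (2 * κ) hDneg hap hab hℓpos hTpos hNE hθ0 hρ hρ1
    (by linarith) (by linarith) F hbad
  rw [hTs] at hfin
  refine le_trans hfin ?_
  refine mul_le_mul_of_nonneg_right ?_ hNd.le
  linarith

end Pool.Agent.helper26.T5
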