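import Pool.Agent.helper94.T5.SpecP

/-!
# t5:PO: the sum of the local weights for odd `p`
-/

set_option autoImplicit false

namespace Pool.Agent.T5P

open Finset

/-- indicator sums are cardinalities -/
theorem PO_card {α : Type} [Fintype α] (P : α → Prop) [DecidablePred P] :
    ∑ v : α, (if P v then (1 : ℝ) else 0) = (Nat.card {v : α // P v} : ℝ) := by
  rw [Finset.sum_boole, Nat.card_eq_fintype_card, Fintype.card_subtype]

open Classical in
/-- a function of two values -/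
theorem PO_two {p : ℕ} [Fact p.Prime] (hPD : PD_stmt) (f : ZMod (p ^ 2) → ℝ) (A B : ℝ)
    (hA : ∀ x, dv p x → f x = A) (hB : ∀ x, ¬ dv p x → f x = B) :
    ∑ x : ZMod (p ^ 2), f x = p * A + ((p : ℝ) ^ 2 - p) * B := by
  obtain ⟨_, _, _, _, _, h6, h7⟩ := hPD p
  have hp1 : 1 ≤ p := (Fact.out : p.Prime).one_lt.le
  have h8 : ((p ^ 2 - p : ℕ) : ℝ) = (p : ℝ) ^ 2 - p := by
    rw [Nat.cast_sub (by nlinarith)]
    push_cast
    ring
  have h1 : ∀ x : ZMod (p ^ 2), f x = A * (if dv p x then (1 : ℝ) else 0) +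
      B * (if ¬ dv p x then (1 : ℝ) else 0) := by
    intro x
    by_cases h : dv p x
    · rw [hA x h, if_pos h, if_neg (not_not.2 h)]
      ring
    · rw [hB x h, if_neg h, if_pos h]
      ring
  rw [Finset.sum_congr rfl fun x _ => h1 x, Finset.sum_add_distrib, ← Finset.mul_sum,
    ← Finset.mul_sum, PO_card, PO_card, h6, h7, h8]
  ring

open Classical in
/-- the inner sum for a unit `n` -/
theorem PO_unit {p : ℕ} [Fact p.Prime] (hPK : PK_stmt) (hPB : PB_stmt) (hPZ : PZ_stmt)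
    (hp : p ≠ 2) (n k : ZMod (p ^ 2)) (hn : ¬ dv p n) (a u : ℝ) (ha : a = (p : ℝ) / (p - 1))
    (hu : u = (p : ℝ) ^ 2 - p) :
    ∑ m : ZMod (p ^ 2), ∑ g : ZMod (p ^ 2), ∑ R : ZMod (p ^ 2), Fp p n k m g R =
      a * ((p : ℝ) ^ 4 * u - u ^ 2 - (if dv p k then u * (p : ℝ) ^ 2 else 0)) +
        a ^ 2 * (if dv p k then 0 else u ^ 2 * p) := by
  have hp1 : 1 ≤ p := (Fact.out : p.Prime).one_lt.le
  have h8 : ((p ^ 2 - p : ℕ) : ℝ) = u := by
    rw [hu, Nat.cast_sub (by nlinarith)]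
    push_cast
    ring
  obtain ⟨z1, z2, z3, z4⟩ := hPZ p hp n k hn
  have k1 := hPK p hp n k hn
  obtain ⟨b1, b2⟩ := hPB p hp n k hn
  have e0 : ∑ m : ZMod (p ^ 2), ∑ g : ZMod (p ^ 2), ∑ R : ZMod (p ^ 2), Fp p n k m g R =
      ∑ v : ZMod (p ^ 2) × ZMod (p ^ 2) × ZMod (p ^ 2), Fp p n k v.1 v.2.1 v.2.2 := by
    rw [Fintype.sum_prod_type]
    refine Finset.sum_congr rfl fun m _ => ?_
    rw [Fintype.sum_prod_type]
  have e1 : ∀ v : ZMod (p ^ 2) × ZMod (p ^ 2) × ZMod (p ^ 2), Fp p n k v.1 v.2.1 v.2.2 =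
      a * (if ¬ dv p (zz p k v.1 v.2.2) then (1 : ℝ) else 0) -
      a * (if ¬ dv p (zz p k v.1 v.2.2) ∧ ¬ dv p (ll p n k v.1 v.2.1 v.2.2) ∧
        nf p (zz p k v.1 v.2.2) (ll p n k v.1 v.2.1 v.2.2) (ss p n k v.1 v.2.1 v.2.2)
          then (1 : ℝ) else 0) -
      a * (if ¬ dv p (zz p k v.1 v.2.2) ∧ dv p (ll p n k v.1 v.2.1 v.2.2) ∧
        nf p (zz p k v.1 v.2.2) (ll p n k v.1 v.2.1 v.2.2) (ss p n k v.1 v.2.1 v.2.2)
          then (1 : ℝ) else 0) +
      a ^ 2 * (if dv p (zz p k v.1 v.2.2) ∧ ¬ dv p (ll p n k v.1 v.2.1 v.2.2)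
          then (1 : ℝ) else 0) := by
    rintro ⟨m, g, R⟩
    have h4 := z4 m g R
    unfold Fp bad
    rw [← ha, if_neg hn]
    dsimp only
    by_cases hz : dv p (zz p k m R) <;> by_cases hl : dv p (ll p n k m g R) <;>
      by_cases hf : nf p (zz p k m R) (ll p n k m g R) (ss p n k m g R) <;>
      simp [hz, hl, hf]
    exact absurd hf (h4 hz hl)
  rw [e0, Finset.sum_congr rfl fun v _ => e1 v, Finset.sum_add_distrib, Finset.sum_sub_distrib,
    Finset.sum_sub_distrib, ← Finset.mul_sum, ← Finset.mul_sum, ← Finset.mul_sum,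
    ← Finset.mul_sum, PO_card, PO_card, PO_card, PO_card, z1, k1]
  by_cases hk : dv p k
  · rw [b1 hk, if_pos hk, if_pos hk]
    have h0 : Nat.card {v : ZMod (p ^ 2) × ZMod (p ^ 2) × ZMod (p ^ 2) //
        dv p (zz p k v.1 v.2.2) ∧ ¬ dv p (ll p n k v.1 v.2.1 v.2.2)} = 0 := by
      rw [Nat.card_eq_zero]
      left
      exact ⟨fun v => v.2.2 (z3 hk _ _ _ v.2.1)⟩
    rw [h0]
    push_cast [h8]
    ring
  · rw [b2 hk, z2 hk, if_neg hk, if_neg hk]
    push_cast [h8]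
    ring

open Classical in
/-- the inner sum for `p ∣ n` -/
theorem PO_dv {p : ℕ} [Fact p.Prime] (hPD : PD_stmt) (n k : ZMod (p ^ 2)) (hn : dv p n)
    (a u : ℝ) (ha : a = (p : ℝ) / (p - 1)) (hu : u = (p : ℝ) ^ 2 - p) :
    ∑ m : ZMod (p ^ 2), ∑ g : ZMod (p ^ 2), ∑ R : ZMod (p ^ 2), Fp p n k m g R =
      if dv p k then 0 else a * ((p : ℝ) - 1) * u * (p : ℝ) ^ 2 := by
  have hp1 : 1 ≤ p := (Fact.out : p.Prime).one_lt.le
  haveI : NeZero (p ^ 2) := ⟨by positivity⟩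
  by_cases hk : dv p k
  · rw [if_pos hk]
    refine Finset.sum_eq_zero fun m _ => Finset.sum_eq_zero fun g _ =>
      Finset.sum_eq_zero fun R _ => ?_
    unfold Fp
    rw [if_pos hn, if_neg (fun h => h.1 hk)]
  · rw [if_neg hk]
    have e1 : ∀ m g R : ZMod (p ^ 2), Fp p n k m g R =
        (if dv p m ∧ m ≠ 0 then (1 : ℝ) else 0) * (if ¬ dv p g then (1 : ℝ) else 0) * a := by
      intro m g R
      unfold Fp
      rw [← ha, if_pos hn]
      by_cases hm : dv p m <;> by_cases hg : dv p g <;> by_cases h0 : m = 0 <;>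
        simp [hk, hm, hg, h0]
    have e2 : ∀ m : ZMod (p ^ 2), ∑ g : ZMod (p ^ 2), ∑ R : ZMod (p ^ 2), Fp p n k m g R =
        (if dv p m ∧ m ≠ 0 then (1 : ℝ) else 0) * (u * a * (p : ℝ) ^ 2) := by
      intro m
      have e3 : ∀ g : ZMod (p ^ 2), ∑ R : ZMod (p ^ 2), Fp p n k m g R =
          (if dv p m ∧ m ≠ 0 then (1 : ℝ) else 0) * (if ¬ dv p g then (1 : ℝ) else 0) * a *
            (p : ℝ) ^ 2 := by
        intro g
        rw [Finset.sum_congr rfl fun R _ => e1 m g R, Finset.sum_const, Finset.card_univ,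
          ZMod.card, nsmul_eq_mul]
        push_cast
        ring
      rw [PO_two hPD _ 0 ((if dv p m ∧ m ≠ 0 then (1 : ℝ) else 0) * a * (p : ℝ) ^ 2)
        (fun g hg => by rw [e3 g, if_neg (not_not.2 hg)]; ring)
        (fun g hg => by rw [e3 g, if_pos hg]; ring), ← hu]
      ring
    rw [Finset.sum_congr rfl fun m _ => e2 m, ← Finset.sum_mul]
    have e4 : ∑ m : ZMod (p ^ 2), (if dv p m ∧ m ≠ 0 then (1 : ℝ) else 0) = (p : ℝ) - 1 := by
      have e5 : ∀ m : ZMod (p ^ 2), (if dv p m ∧ m ≠ 0 then (1 : ℝ) else 0) =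
          (if dv p m then (1 : ℝ) else 0) - (if m = 0 then (1 : ℝ) else 0) := by
        intro m
        by_cases h0 : m = 0
        · have h1 : dv p m := by
            rw [h0]
            unfold dv
            rw [mul_zero]
          rw [if_neg (fun h => h.2 h0), if_pos h1, if_pos h0]
          ring
        · simp [h0]
      rw [Finset.sum_congr rfl fun m _ => e5 m, Finset.sum_sub_distrib, PO_card,
        (hPD p).2.2.2.2.2.1]
      simp
    rw [e4]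
    ring

theorem PO (hPD : PD_stmt) (hPK : PK_stmt) (hPB : PB_stmt) (hPZ : PZ_stmt) : PO_stmt := by
  classical
  intro p _ hp
  have hp1 : 1 < p := (Fact.out : p.Prime).one_lt
  have hpr : (1 : ℝ) < p := by exact_mod_cast hp1
  have hp0 : (p : ℝ) ≠ 0 := by positivity
  have hpm : (p : ℝ) - 1 ≠ 0 := by linarith
  set a : ℝ := (p : ℝ) / (p - 1) with ha
  set u : ℝ := (p : ℝ) ^ 2 - p with hu
  have t1 : ∀ n : ZMod (p ^ 2), dv p n → ∑ k : ZMod (p ^ 2), ∑ m : ZMod (p ^ 2),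
      ∑ g : ZMod (p ^ 2), ∑ R : ZMod (p ^ 2), Fp p n k m g R =
        u * (a * ((p : ℝ) - 1) * u * (p : ℝ) ^ 2) := by
    intro n hn
    rw [PO_two hPD _ 0 (a * ((p : ℝ) - 1) * u * (p : ℝ) ^ 2)
      (fun k hk => by rw [PO_dv hPD n k hn a u ha hu, if_pos hk])
      (fun k hk => by rw [PO_dv hPD n k hn a u ha hu, if_neg hk]), ← hu]
    ring
  have t2 : ∀ n : ZMod (p ^ 2), ¬ dv p n → ∑ k : ZMod (p ^ 2), ∑ m : ZMod (p ^ 2),
      ∑ g : ZMod (p ^ 2), ∑ R : ZMod (p ^ 2), Fp p n k m g R =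
        p * (a * ((p : ℝ) ^ 4 * u - u ^ 2 - u * (p : ℝ) ^ 2)) +
          u * (a * ((p : ℝ) ^ 4 * u - u ^ 2) + a ^ 2 * (u ^ 2 * p)) := by
    intro n hn
    rw [PO_two hPD _ (a * ((p : ℝ) ^ 4 * u - u ^ 2 - u * (p : ℝ) ^ 2))
      (a * ((p : ℝ) ^ 4 * u - u ^ 2) + a ^ 2 * (u ^ 2 * p))
      (fun k hk => by rw [PO_unit hPK hPB hPZ hp n k hn a u ha hu, if_pos hk, if_pos hk]; ring)
      (fun k hk => by rw [PO_unit hPK hPB hPZ hp n k hn a u ha hu, if_neg hk, if_neg hk]; ring),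
      ← hu]
  rw [PO_two hPD _ _ _ t1 t2, ← hu, ha, hu]
  field_simp
  ring

end Pool.Agent.T5P
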