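import Pool.Agent.helper94.T5.SpecT

/-!
# t5:TA5: the modulus
-/

set_option autoImplicit false

namespace Pool.Agent.T5T

open Finset Pool.Agent.T5

theorem TA5_pos (S : Finset ℕ) (hS : ∀ p ∈ S, p.Prime) : 0 < T5P.ee S := by
  unfold T5P.ee
  exact Finset.prod_pos fun p hp => pow_pos (hS p hp).pos 2

theorem TA5_dvd (S : Finset ℕ) (p : ℕ) (hp : p ∈ S) : p ^ 2 ∣ T5P.ee S := by
  unfold T5P.ee
  exact Finset.dvd_prod_of_mem (fun q => q ^ 2) hp

theorem TA5_mem (S : Finset ℕ) (hS : ∀ p ∈ S, p.Prime) (p : ℕ) (hp : p.Prime)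
    (h : p ∣ T5P.ee S) : p ∈ S := by
  unfold T5P.ee at h
  obtain ⟨q, hq, hpq⟩ := (Prime.dvd_finset_prod_iff hp.prime _).1 h
  have h1 : p ∣ q := hp.dvd_of_dvd_pow hpq
  rwa [(Nat.prime_dvd_prime_iff_eq hp (hS q hq)).1 h1]

theorem TA5_pf (S : Finset ℕ) (hS : ∀ p ∈ S, p.Prime) : (T5P.ee S).primeFactors = S := by
  ext p
  rw [Nat.mem_primeFactors]
  constructor
  · rintro ⟨h1, h2, -⟩
    exact TA5_mem S hS p h1 h2
  · intro h
    exact ⟨hS p h, (dvd_pow_self p two_ne_zero).trans (TA5_dvd S p h), (TA5_pos S hS).ne'⟩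

theorem TA5_dv (p : ℕ) (n : ℤ) (h : (p : ℤ) ∣ n) : T5P.dv p (n : ZMod (p ^ 2)) := by
  obtain ⟨c, rfl⟩ := h
  unfold T5P.dv
  have h1 : ((p ^ 2 : ℕ) : ZMod (p ^ 2)) = 0 := ZMod.natCast_self _
  push_cast at h1 ⊢
  calc (p : ZMod (p ^ 2)) * (p * c) = (p : ZMod (p ^ 2)) ^ 2 * c := by ring
    _ = 0 := by rw [h1, zero_mul]

theorem TA5 : TA5_stmt := by
  classical
  intro S hS
  have hpos := TA5_pos S hS
  refine ⟨hpos, TA5_pf S hS, ?_, ?_, ?_⟩
  · intro n
    refine ⟨?_, ?_, ?_⟩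
    · unfold e1
      have h1 := Nat.prod_factorization_pow_eq_self hpos.ne'
      have h2 : (T5P.ee S).factorization.prod (fun x1 x2 => x1 ^ x2) =
          ∏ p ∈ (T5P.ee S).primeFactors, p ^ ((T5P.ee S).factorization p) := rfl
      rw [h2] at h1
      conv_rhs => rw [← h1]
      exact Finset.prod_dvd_prod_of_subset _ _ _ (Finset.filter_subset _ _)
    · unfold e1
      refine Nat.one_le_iff_ne_zero.2 (Finset.prod_ne_zero_iff.2 fun p hp => ?_)
      have h1 := Nat.prime_of_mem_primeFactors (Finset.mem_filter.1 hp).1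
      exact pow_ne_zero _ h1.ne_zero
    · intro p hp hpn
      have h1 : p ∈ (T5P.ee S).primeFactors.filter (fun p => ¬ p ∣ n) := by
        rw [Finset.mem_filter, TA5_pf S hS]
        exact ⟨hp, hpn⟩
      have h2 : 2 ≤ (T5P.ee S).factorization p :=
        ((hS p hp).pow_dvd_iff_le_factorization hpos.ne').1 (TA5_dvd S p hp)
      unfold e1
      exact (pow_dvd_pow p h2).trans
        (Finset.dvd_prod_of_mem (fun q => q ^ ((T5P.ee S).factorization q)) h1)
  · intro a b hab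
    unfold e1
    have h1 : (T5P.ee S).primeFactors.filter (fun p => ¬ p ∣ a) =
        (T5P.ee S).primeFactors.filter (fun p => ¬ p ∣ b) := by
      refine Finset.filter_congr fun p hp => not_congr ?_
      have h2 : p ∣ T5P.ee S := Nat.dvd_of_mem_primeFactors hp
      have h3 : (p : ℤ) ∣ (a : ℤ) - b := dvd_trans (by exact_mod_cast h2) hab
      have h4 : (p : ℤ) ∣ (a : ℤ) ↔ (p : ℤ) ∣ (b : ℤ) := by
        constructor
        · intro h
          have := dvd_sub h h3
          simpa using this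
        · intro h
          have := dvd_add h h3
          simpa using this
      rwa [Int.natCast_dvd_natCast, Int.natCast_dvd_natCast] at h4
    rw [h1]
  · intro n k m g R hne p hp hpe
    rintro ⟨hn, hk⟩
    have hpS := TA5_mem S hS p hp hpe
    unfold T5P.FF at hne
    have h1 := Finset.prod_ne_zero_iff.1 hne p hpS
    apply h1
    unfold T5P.Fp
    rw [if_pos (TA5_dv p n hn), if_neg (fun h => h.1 (TA5_dv p k hk))]

end Pool.Agent.T5T
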