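import Pool.Agent.helper94.T5.SpecT

/-!
# t5:TA6: decomposition into classes
-/

set_option autoImplicit false

namespace Pool.Agent.T5T

open Finset Pool.Agent.T5

theorem TA6_res (e : ℕ) (he : 0 < e) (x : ℤ) :
    (x % (e : ℤ)).toNat ∈ range e ∧ (e : ℤ) ∣ x - ((x % (e : ℤ)).toNat : ℤ) := by
  have he' : (e : ℤ) ≠ 0 := by exact_mod_cast he.ne'
  have h0 : 0 ≤ x % (e : ℤ) := Int.emod_nonneg x he'
  have h1 : x % (e : ℤ) < e := Int.emod_lt_of_pos x (by exact_mod_cast he)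
  constructor
  · rw [Finset.mem_range]
    omega
  · rw [Int.toNat_of_nonneg h0]
    exact Int.dvd_self_sub_emod

theorem TA6_one (e : ℕ) (he : 0 < e) (x : ℤ) (f : ℕ → ℝ)
    (hf : ∀ n ∈ range e, ¬ (e : ℤ) ∣ x - (n : ℤ) → f n = 0) :
    ∑ n ∈ range e, f n = f (x % (e : ℤ)).toNat := by
  obtain ⟨h1, h2⟩ := TA6_res e he x
  refine Finset.sum_eq_single _ (fun n hn hne => hf n hn fun hd => hne ?_) (fun h => absurd h1 h)
  have h3 : (e : ℤ) ∣ ((x % (e : ℤ)).toNat : ℤ) - n := by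
    have := dvd_sub hd h2
    have h4 : x - (n : ℤ) - (x - ((x % (e : ℤ)).toNat : ℤ)) = ((x % (e : ℤ)).toNat : ℤ) - n := by
      ring
    rwa [h4] at this
  have h5 := Finset.mem_range.1 hn
  have h6 := Finset.mem_range.1 h1
  have h7 : ((x % (e : ℤ)).toNat : ℤ) - n = 0 := by
    refine Int.eq_zero_of_abs_lt_dvd h3 ?_
    rw [abs_lt]
    omega
  omega

theorem TA6_cnt (q r : ℕ) (hr : 0 < r) (x : ℤ) :
    ((range (r * q)).filter (fun R : ℕ => (r : ℤ) ∣ x - (R : ℤ))).card = q := by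
  obtain ⟨h1, h2⟩ := TA6_res r hr x
  set s : ℕ := (x % (r : ℤ)).toNat with hs
  have hsr := Finset.mem_range.1 h1
  have h3 : (range (r * q)).filter (fun R : ℕ => (r : ℤ) ∣ x - (R : ℤ)) =
      (range q).image (fun j => s + r * j) := by
    ext R
    rw [Finset.mem_filter, Finset.mem_range, Finset.mem_image]
    constructor
    · rintro ⟨h4, h5⟩
      refine ⟨R / r, ?_, ?_⟩
      · rw [Finset.mem_range]
        exact Nat.div_lt_of_lt_mul h4
      · have h6 : (r : ℤ) ∣ (s : ℤ) - (R : ℤ) := by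
          have := dvd_sub h5 h2
          have h7 : x - (R : ℤ) - (x - (s : ℤ)) = (s : ℤ) - R := by ring
          rwa [h7] at this
        have h8 : R % r = s := by
          have h9 : R ≡ s [MOD r] := (Nat.modEq_iff_dvd).2 h6
          have h10 : R % r = s % r := h9
          rw [h10, Nat.mod_eq_of_lt hsr]
        have h11 := Nat.mod_add_div R r
        rw [h8] at h11
        exact h11
    · rintro ⟨j, hj, rfl⟩
      rw [Finset.mem_range] at hj
      constructor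
      · have : r * (j + 1) ≤ r * q := Nat.mul_le_mul_left r hj
        rw [mul_add] at this
        omega
      · have h12 : x - ((s + r * j : ℕ) : ℤ) = (x - (s : ℤ)) - r * j := by
          push_cast
          ring
        rw [h12]
        exact dvd_sub h2 (Dvd.intro _ rfl)
  rw [h3, Finset.card_image_of_injective, Finset.card_range]
  intro a b hab
  have hab' : s + r * a = s + r * b := hab
  have : r * a = r * b := by omega
  exact Nat.eq_of_mul_eq_mul_left hr this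

open Classical in
theorem TA6_pt (hPIN : Pool.Agent.T5P.PIN_stmt) (hTA2 : TA2_stmt) (hTA5 : TA5_stmt) (w : ℕ)
    (t : Tpl) (ht : IsT t) :
    fw w t = ∑ n ∈ range (T5P.ee (pr w)), ∑ k ∈ range (T5P.ee (pr w)),
    ∑ m ∈ range (T5P.ee (pr w)), ∑ g ∈ range (T5P.ee (pr w)), ∑ R ∈ range (T5P.ee (pr w)),
      T5P.FF (pr w) n k m g R * ((e1 (T5P.ee (pr w)) n : ℝ) / (T5P.ee (pr w) : ℝ)) *
        (if cls (T5P.ee (pr w)) n k m g R t then (1 : ℝ) else 0) := by
  have hS : ∀ p ∈ pr w, p.Prime := fun p hp => (Finset.mem_filter.1 hp).2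
  obtain ⟨he, -, h3, h4, -⟩ := hTA5 (pr w) hS
  set e : ℕ := T5P.ee (pr w) with hedef
  have he0 : 0 < e := he
  have her : (e : ℝ) ≠ 0 := by positivity
  rw [TA6_one e he0 (t.1.1 : ℤ) _ (fun n _ hn => ?_)]
  swap
  · refine Finset.sum_eq_zero fun k _ => Finset.sum_eq_zero fun m _ => Finset.sum_eq_zero fun g _ =>
      Finset.sum_eq_zero fun R _ => ?_
    rw [if_neg (fun h => hn h.1), mul_zero]
  rw [TA6_one e he0 (t.1.2 : ℤ) _ (fun n _ hn => ?_)]
  swap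
  · refine Finset.sum_eq_zero fun m _ => Finset.sum_eq_zero fun g _ =>
      Finset.sum_eq_zero fun R _ => ?_
    rw [if_neg (fun h => hn h.2.1), mul_zero]
  rw [TA6_one e he0 t.2.1 _ (fun n _ hn => ?_)]
  swap
  · refine Finset.sum_eq_zero fun g _ => Finset.sum_eq_zero fun R _ => ?_
    rw [if_neg (fun h => hn h.2.2.1), mul_zero]
  rw [TA6_one e he0 t.2.2.1 _ (fun n _ hn => ?_)]
  swap
  · refine Finset.sum_eq_zero fun R _ => ?_
    rw [if_neg (fun h => hn h.2.2.2.1), mul_zero]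
  obtain ⟨-, dn⟩ := TA6_res e he0 (t.1.1 : ℤ)
  obtain ⟨-, dk⟩ := TA6_res e he0 (t.1.2 : ℤ)
  obtain ⟨-, dm⟩ := TA6_res e he0 t.2.1
  obtain ⟨-, dg⟩ := TA6_res e he0 t.2.2.1
  set n₀ : ℕ := ((t.1.1 : ℤ) % (e : ℤ)).toNat
  set k₀ : ℕ := ((t.1.2 : ℤ) % (e : ℤ)).toNat
  set m₀ : ℕ := (t.2.1 % (e : ℤ)).toNat
  set g₀ : ℕ := (t.2.2.1 % (e : ℤ)).toNat
  have he1 : e1 e n₀ = e1 e t.1.1 := (h4 t.1.1 n₀ dn).symm
  obtain ⟨hdiv, hpos1, hsq⟩ := h3 t.1.1
  have hterm : ∀ R ∈ range e, T5P.FF (pr w) n₀ k₀ m₀ g₀ R * ((e1 e n₀ : ℝ) / (e : ℝ)) *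
        (if cls e n₀ k₀ m₀ g₀ R t then (1 : ℝ) else 0) =
      (fw w t * ((e1 e t.1.1 : ℝ) / (e : ℝ))) *
        (if (e1 e t.1.1 : ℤ) ∣ RR t - (R : ℤ) then (1 : ℝ) else 0) := by
    intro R _
    by_cases hR : (e1 e t.1.1 : ℤ) ∣ RR t - (R : ℤ)
    · rw [if_pos hR, if_pos ⟨dn, dk, dm, dg, hR⟩, he1, hTA2 w t ht]
      have h5 := (hPIN (pr w) hS).2 t.1.1 t.1.2 t.2.1 t.2.2.1 (RR t) n₀ k₀ m₀ g₀ R (e1 e t.1.1)
        dn dk dm dg (fun p hp hpn => by
          have := hsq p hp (fun h => hpn (by exact_mod_cast h))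
          exact_mod_cast this) hR
      rw [h5]
    · rw [if_neg hR, if_neg (fun h => hR h.2.2.2.2), mul_zero, mul_zero]
  rw [Finset.sum_congr rfl hterm, ← Finset.mul_sum, Finset.sum_boole]
  obtain ⟨q, hq⟩ := hdiv
  have h6 : ((range e).filter (fun R : ℕ => (e1 e t.1.1 : ℤ) ∣ RR t - (R : ℤ))).card = q := by
    have h10 := TA6_cnt q _ hpos1 (RR t)
    rwa [← hq] at h10
  rw [h6]
  have h7 : (e : ℝ) = (e1 e t.1.1 : ℝ) * q := by exact_mod_cast hq
  have h8 : (e1 e t.1.1 : ℝ) ≠ 0 := by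
    have : e1 e t.1.1 ≠ 0 := by omega
    exact_mod_cast this
  have h9 : (e1 e t.1.1 : ℝ) / (e : ℝ) * q = 1 := by
    rw [div_mul_eq_mul_div, ← h7, div_self her]
  rw [mul_assoc, h9, mul_one]

theorem TA6 (hPIN : Pool.Agent.T5P.PIN_stmt) (hTA2 : TA2_stmt) (hTA5 : TA5_stmt) : TA6_stmt := by
  classical
  intro w F hF
  rw [Finset.sum_congr rfl fun t ht => TA6_pt hPIN hTA2 hTA5 w t (hF t ht)]
  rw [Finset.sum_comm]
  refine Finset.sum_congr rfl fun n _ => ?_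
  rw [Finset.sum_comm]
  refine Finset.sum_congr rfl fun k _ => ?_
  rw [Finset.sum_comm]
  refine Finset.sum_congr rfl fun m _ => ?_
  rw [Finset.sum_comm]
  refine Finset.sum_congr rfl fun g _ => ?_
  rw [Finset.sum_comm]
  refine Finset.sum_congr rfl fun R _ => ?_
  rw [← Finset.mul_sum, Finset.sum_boole]

end Pool.Agent.T5T
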